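import Pool.Agent.KNR.Tr

/-!
Cuts at the level of functions, and iterated curves.
-/

set_option autoImplicit false

namespace Pool.Agent.KNR

open MvPolynomial

/-- the function of `f` has rank at most `w` at every cut `(x_i)_{i < p} | (x_i)_{i ≥ p}`. -/
def Cut {n : ℕ} (w : ℕ) (f : MvPolynomial (Fin n) ℂ) : Prop :=
  ∀ p : ℕ, ∃ A B : Fin w → (Fin n → ℂ) → ℂ, ∀ x y : Fin n → ℂ,
    eval (fun i : Fin n => if (i : ℕ) < p then x i else y i) f = ∑ j, A j x * B j y

theorem PCut.cut {n w : ℕ} {f : MvPolynomial (Fin n) ℂ} (hf : PCut w f) : Cut w f := by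
  classical
  intro p
  obtain ⟨g, h, hg, hh, hgh⟩ := hf p
  refine ⟨fun j x => eval x (g j), fun j y => eval y (h j), fun x y => ?_⟩
  rw [hgh, map_sum]
  refine Finset.sum_congr rfl fun j _ => ?_
  rw [map_mul]
  congr 1
  · refine eval₂Hom_congr' rfl (fun i hi _ => ?_) rfl
    simp only [hg j i hi, if_true]
  · refine eval₂Hom_congr' rfl (fun i hi _ => ?_) rfl
    simp only [not_lt.2 (hh j i hi), if_false]

/-- the curve `c` (in `N` coordinates, used for the coordinates `i % N`) iterated `R` times. -/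
noncomputable def itc (N : ℕ) (c : ℕ → Polynomial ℤ) : ℕ → ℕ → Polynomial ℤ
  | 0, _ => Polynomial.X
  | R + 1, i => (c (i % N)).comp (itc N c R (i / N))

/-- `c` hits all polynomials in `N` variables with cuts `≤ w`. -/
def Hits (N w : ℕ) (c : ℕ → Polynomial ℤ) : Prop :=
  ∀ f : MvPolynomial (Fin N) ℂ, f ≠ 0 → Cut w f →
    aeval (fun i : Fin N => (c (i : ℕ)).map (Int.castRingHom ℂ)) f ≠ (0 : Polynomial ℂ)

end Pool.Agent.KNR
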