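import Mathlib

/-!
The final count.
-/

set_option autoImplicit false

namespace Pool.Agent.KNR

/-- number of rounds -/
def rounds (b n : ℕ) : ℕ := Nat.log 2 n / b + 1

theorem le_rounds {b : ℕ} (hb : 0 < b) (n : ℕ) : n ≤ (2 ^ b) ^ rounds b n := by
  rw [← pow_mul]
  have h1 : Nat.log 2 n < b * rounds b n := by
    unfold rounds
    have := Nat.div_add_mod (Nat.log 2 n) b
    have h2 := Nat.mod_lt (Nat.log 2 n) hb
    rw [mul_add, mul_one]
    omega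
  have h3 : n < 2 ^ (Nat.log 2 n + 1) := Nat.lt_pow_succ_log_self (by norm_num) n
  exact h3.le.trans (Nat.pow_le_pow_right (by norm_num) h1)

theorem rounds_mul_le (b n : ℕ) : b * rounds b n ≤ Nat.log 2 n + b := by
  unfold rounds
  have := Nat.mul_div_le (Nat.log 2 n) b
  rw [mul_add, mul_one]
  omega

theorem pow_rounds {b k A c : ℕ} (hb : 0 < b) (hk : 0 < k) (hc : c * k ≤ b) :
    ∃ C : ℕ, ∀ n w D : ℕ, 0 < n → 0 < w → D ≤ A * w ^ c →
      (D ^ rounds b n) ^ k ≤ (C * (n * w) ^ C) ^ k * w ^ (Nat.log 2 n) := by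
  obtain ⟨a, ha⟩ : ∃ a : ℕ, A ≤ 2 ^ (a * b) := by
    refine ⟨A, ?_⟩
    calc A ≤ 2 ^ A := Nat.lt_two_pow_self.le
      _ ≤ 2 ^ (A * b) := Nat.pow_le_pow_right (by norm_num) (Nat.le_mul_of_pos_right _ hb)
  refine ⟨2 ^ (a * b) + a + b, fun n w D hn hw hD => ?_⟩
  set C : ℕ := 2 ^ (a * b) + a + b with hC
  set R : ℕ := rounds b n with hR
  set L : ℕ := Nat.log 2 n with hL
  have hbR : b * R ≤ L + b := rounds_mul_le b n
  have h2L : 2 ^ L ≤ n := Nat.pow_log_le_self 2 hn.ne'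
  have h1 : D ^ R ≤ A ^ R * w ^ (c * R) := by
    calc D ^ R ≤ (A * w ^ c) ^ R := Nat.pow_le_pow_left hD R
      _ = A ^ R * w ^ (c * R) := by rw [mul_pow, pow_mul]
  have h2 : A ^ R ≤ n ^ a * 2 ^ (a * b) := by
    calc A ^ R ≤ (2 ^ (a * b)) ^ R := Nat.pow_le_pow_left ha R
      _ = 2 ^ (a * (b * R)) := by rw [← pow_mul, mul_assoc]
      _ ≤ 2 ^ (a * (L + b)) := Nat.pow_le_pow_right (by norm_num) (Nat.mul_le_mul_left _ hbR)
      _ = (2 ^ L) ^ a * 2 ^ (a * b) := by rw [mul_add, pow_add, mul_comm a L, pow_mul]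
      _ ≤ n ^ a * 2 ^ (a * b) := Nat.mul_le_mul_right _ (Nat.pow_le_pow_left h2L a)
  have h3 : (w ^ (c * R)) ^ k ≤ (w ^ b) ^ k * w ^ L := by
    calc (w ^ (c * R)) ^ k = w ^ ((c * k) * R) := by rw [← pow_mul]; congr 1; ring
      _ ≤ w ^ (b * R) := Nat.pow_le_pow_right hw (Nat.mul_le_mul_right _ hc)
      _ ≤ w ^ (L + b) := Nat.pow_le_pow_right hw hbR
      _ = w ^ b * w ^ L := by rw [pow_add, mul_comm]
      _ ≤ (w ^ b) ^ k * w ^ L := by
          refine Nat.mul_le_mul_right _ ?_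
          calc w ^ b = (w ^ b) ^ 1 := (pow_one _).symm
            _ ≤ (w ^ b) ^ k := Nat.pow_le_pow_right (Nat.pow_pos hw) hk
  have h4 : n ^ a * 2 ^ (a * b) * w ^ b ≤ C * (n * w) ^ C := by
    have e1 : n ^ a ≤ n ^ C := Nat.pow_le_pow_right hn (by omega)
    have e2 : w ^ b ≤ w ^ C := Nat.pow_le_pow_right hw (by omega)
    have e3 : 2 ^ (a * b) ≤ C := by omega
    calc n ^ a * 2 ^ (a * b) * w ^ b ≤ n ^ C * C * w ^ C :=
          Nat.mul_le_mul (Nat.mul_le_mul e1 e3) e2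
      _ = C * (n * w) ^ C := by rw [mul_pow]; ring
  calc (D ^ R) ^ k ≤ (A ^ R * w ^ (c * R)) ^ k := Nat.pow_le_pow_left h1 k
    _ = (A ^ R) ^ k * (w ^ (c * R)) ^ k := mul_pow _ _ _
    _ ≤ (n ^ a * 2 ^ (a * b)) ^ k * ((w ^ b) ^ k * w ^ L) :=
        Nat.mul_le_mul (Nat.pow_le_pow_left h2 k) h3
    _ = (n ^ a * 2 ^ (a * b) * w ^ b) ^ k * w ^ L := by rw [mul_pow (n ^ a * 2 ^ (a * b))]; ring
    _ ≤ (C * (n * w) ^ C) ^ k * w ^ L := Nat.mul_le_mul_right _ (Nat.pow_le_pow_left h4 k)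

/-- the count -/
theorem count {b k A c : ℕ} (hb : 0 < b) (hk : 0 < k) (hc : c * k ≤ b) :
    ∃ C : ℕ, ∀ n w d D : ℕ, 0 < n → 0 < w → 0 < D → D ≤ A * w ^ c →
      (n * d * D ^ rounds b n + 1) ^ k ≤ (C * (d + 1) * (n * w) ^ C) ^ k * w ^ (Nat.log 2 n) := by
  obtain ⟨C, hC⟩ := pow_rounds (A := A) hb hk hc
  refine ⟨C + 1, fun n w d D hn hw hD0 hD => ?_⟩
  have h1 := hC n w D hn hw hD
  set R : ℕ := rounds b n with hR
  set L : ℕ := Nat.log 2 n with hL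
  have h2 : n * d * D ^ R + 1 ≤ n * (d + 1) * D ^ R := by
    have : 1 ≤ n * D ^ R := Nat.mul_pos hn (Nat.pow_pos hD0)
    nlinarith
  calc (n * d * D ^ R + 1) ^ k ≤ (n * (d + 1) * D ^ R) ^ k := Nat.pow_le_pow_left h2 k
    _ = (n * (d + 1)) ^ k * (D ^ R) ^ k := mul_pow _ _ _
    _ ≤ (n * (d + 1)) ^ k * ((C * (n * w) ^ C) ^ k * w ^ L) := Nat.mul_le_mul_left _ h1
    _ = (n * (d + 1) * (C * (n * w) ^ C)) ^ k * w ^ L := by
        rw [mul_pow (n * (d + 1))]; ring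
    _ ≤ ((C + 1) * (d + 1) * (n * w) ^ (C + 1)) ^ k * w ^ L := by
        refine Nat.mul_le_mul_right _ (Nat.pow_le_pow_left ?_ k)
        calc n * (d + 1) * (C * (n * w) ^ C) = C * (d + 1) * ((n * w) ^ C * n) := by ring
          _ ≤ (C + 1) * (d + 1) * ((n * w) ^ C * (n * w)) := by
              refine Nat.mul_le_mul (Nat.mul_le_mul_right _ (by omega)) ?_
              exact Nat.mul_le_mul_left _ (Nat.le_mul_of_pos_right _ hw)
          _ = (C + 1) * (d + 1) * (n * w) ^ (C + 1) := by rw [pow_succ]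

end Pool.Agent.KNR
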