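import Pool.Agent.KNR.Siz

/-!
Bounds of the families in the final form.
-/

set_option autoImplicit false

namespace Pool.Agent.KNR

theorem ed_pos (s w : ℕ) : 1 ≤ ed s w := by
  unfold ed; omega

/-- a common bound for the number of points and for the sizes of the coordinates -/
def gb (s n w d : ℕ) : ℕ :=
  (qex s (max w 1) + n * d + 1) * (ed s (max w 1) ^ rounds (s * 2 ^ s) n) ^ 2

theorem length_le_gb (s n w d : ℕ) : (fam s n w d).length ≤ gb s n w d := by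
  rw [length_fam, gb]
  have h1 : dw (nn s) (max w 1) (corep s (max w 1)).length ^ rounds (s * 2 ^ s) n ≤
      ed s (max w 1) ^ rounds (s * 2 ^ s) n := Nat.pow_le_pow_left (by unfold ed; omega) _
  have h2 : 1 ≤ ed s (max w 1) ^ rounds (s * 2 ^ s) n := Nat.one_le_pow _ _ (ed_pos _ _)
  set E : ℕ := ed s (max w 1) ^ rounds (s * 2 ^ s) n with hE
  set F : ℕ := dw (nn s) (max w 1) (corep s (max w 1)).length ^ rounds (s * 2 ^ s) n with hF
  have h3 : n * d * F ≤ n * d * E := Nat.mul_le_mul_left _ h1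
  have h4 : E ≤ E ^ 2 := Nat.le_self_pow (by norm_num) E
  calc n * d * F + 1 ≤ n * d * E ^ 2 + E ^ 2 :=
        Nat.add_le_add (h3.trans (Nat.mul_le_mul_left _ h4)) (h2.trans h4)
    _ ≤ (qex s (max w 1) + n * d + 1) * E ^ 2 := by nlinarith

theorem size_le_gb (s n w d : ℕ) : ∀ p ∈ fam s n w d, ∀ x ∈ p, Nat.size x.natAbs ≤ gb s n w d := by
  intro p hp x hx
  have h1 := fam1_abs (le_max_right w 1) p hp x hx
  refine h1.trans ?_
  rw [gb]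
  have h2 : 1 ≤ ed s (max w 1) ^ rounds (s * 2 ^ s) n := Nat.one_le_pow _ _ (ed_pos _ _)
  set E : ℕ := ed s (max w 1) ^ rounds (s * 2 ^ s) n with hE
  rw [sq, ← mul_assoc]
  refine Nat.mul_le_mul_right _ ?_
  nlinarith [Nat.zero_le (qex s (max w 1))]

theorem rounds_zero (b : ℕ) : rounds b 0 = rounds b 1 := by
  unfold rounds
  simp

private theorem bnd_par (k s : ℕ) (hs : s = 152 * k) : (40 + 36 * 2 ^ s) * (2 * k) ≤ s * 2 ^ s := by
  have h1 : 1 ≤ 2 ^ s := Nat.one_le_two_pow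
  have h2 : 40 + 36 * 2 ^ s ≤ 76 * 2 ^ s := by omega
  calc (40 + 36 * 2 ^ s) * (2 * k) ≤ 76 * 2 ^ s * (2 * k) := Nat.mul_le_mul_right _ h2
    _ = s * 2 ^ s := by rw [hs]; ring

theorem fam_bound (k : ℕ) (hk : 0 < k) : ∃ s : ℕ, 1 ≤ s ∧ ∃ C : ℕ, ∀ n w d : ℕ,
    (2 * gb s n w d) ^ k ≤ (C * (d + 1) * ((n + 1) * (w + 1)) ^ C) ^ k * (w + 1) ^ Nat.log 2 n := by
  set s : ℕ := 152 * k with hs
  have hs1 : 1 ≤ s := by omega
  refine ⟨s, hs1, ?_⟩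
  obtain ⟨A, hA⟩ := ed_le s
  have hb : 0 < s * 2 ^ s := by positivity
  obtain ⟨C₁, hC₁⟩ := pow_rounds (A := A) (k := 2 * k) hb (by omega) (bnd_par k s hs)
  obtain ⟨A₂, hA₂⟩ := pb_qex s
  refine ⟨2 * C₁ ^ 2 * (A₂ + 2) + 2 * C₁ + A₂ + 1, fun n w d => ?_⟩
  set C : ℕ := 2 * C₁ ^ 2 * (A₂ + 2) + 2 * C₁ + A₂ + 1 with hC
  set W : ℕ := max w 1 with hW
  have hW1 : 1 ≤ W := le_max_right _ _
  have hWw : W ≤ w + 1 := by omega
  set B : ℕ := (n + 1) * (w + 1) with hB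
  have hB1 : 1 ≤ B := Nat.mul_pos (by omega) (by omega)
  set E : ℕ := ed s W ^ rounds (s * 2 ^ s) n with hE
  have h1 : E ^ (2 * k) ≤ (C₁ * B ^ C₁) ^ (2 * k) * (w + 1) ^ Nat.log 2 n := by
    rcases Nat.eq_zero_or_pos n with hn | hn
    · have h2 := hC₁ 1 W (ed s W) (by norm_num) hW1 (hA W hW1)
      rw [← rounds_zero, ← hn, ← hE] at h2
      refine h2.trans ?_
      rw [hn]
      simp only [Nat.log_one_right, Nat.log_zero_right, pow_zero, mul_one, one_mul]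
      refine Nat.pow_le_pow_left (Nat.mul_le_mul_left _ (Nat.pow_le_pow_left ?_ _)) _
      rw [hB, hn]
      omega
    · have h2 := hC₁ n W (ed s W) hn hW1 (hA W hW1)
      rw [← hE] at h2
      refine h2.trans (Nat.mul_le_mul ?_ (Nat.pow_le_pow_left hWw _))
      refine Nat.pow_le_pow_left (Nat.mul_le_mul_left _ (Nat.pow_le_pow_left ?_ _)) _
      exact Nat.mul_le_mul (by omega) hWw
  have h3 : qex s W + n * d + 1 ≤ (A₂ + 2) * (d + 1) * B ^ (A₂ + 1) := by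
    have e1 : qex s W ≤ A₂ * B ^ (A₂ + 1) := by
      refine (hA₂ W hW1).trans (Nat.mul_le_mul_left _ ?_)
      calc W ^ A₂ ≤ B ^ A₂ := Nat.pow_le_pow_left (hWw.trans (Nat.le_mul_of_pos_left _ (by omega))) _
        _ ≤ B ^ (A₂ + 1) := Nat.pow_le_pow_right hB1 (by omega)
    have e2 : n ≤ B ^ (A₂ + 1) := by
      calc n ≤ B := by rw [hB]; nlinarith
        _ ≤ B ^ (A₂ + 1) := Nat.le_self_pow (by omega) B
    have e3 : 1 ≤ B ^ (A₂ + 1) := Nat.one_le_pow _ _ hB1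
    set Z : ℕ := B ^ (A₂ + 1) with hZ
    have e4 : n * d ≤ Z * d := Nat.mul_le_mul_right _ e2
    nlinarith [Nat.zero_le (A₂ * Z * d), Nat.zero_le (Z * d)]
  have h4 : 2 * gb s n w d ≤ (2 * ((A₂ + 2) * (d + 1) * B ^ (A₂ + 1))) * E ^ 2 := by
    rw [gb, ← hW, ← hE]
    calc 2 * ((qex s W + n * d + 1) * E ^ 2) = (2 * (qex s W + n * d + 1)) * E ^ 2 := by ring
      _ ≤ _ := Nat.mul_le_mul_right _ (Nat.mul_le_mul_left _ h3)
  calc (2 * gb s n w d) ^ k ≤ ((2 * ((A₂ + 2) * (d + 1) * B ^ (A₂ + 1))) * E ^ 2) ^ k :=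
        Nat.pow_le_pow_left h4 k
    _ = (2 * ((A₂ + 2) * (d + 1) * B ^ (A₂ + 1))) ^ k * E ^ (2 * k) := by
        rw [mul_pow _ (E ^ 2), ← pow_mul]
    _ ≤ (2 * ((A₂ + 2) * (d + 1) * B ^ (A₂ + 1))) ^ k * ((C₁ * B ^ C₁) ^ (2 * k) *
          (w + 1) ^ Nat.log 2 n) := Nat.mul_le_mul_left _ h1
    _ = (2 * ((A₂ + 2) * (d + 1) * B ^ (A₂ + 1)) * (C₁ * B ^ C₁) ^ 2) ^ k *
          (w + 1) ^ Nat.log 2 n := by
        rw [mul_pow _ ((C₁ * B ^ C₁) ^ 2), ← pow_mul (C₁ * B ^ C₁)]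
        ring
    _ ≤ (C * (d + 1) * B ^ C) ^ k * (w + 1) ^ Nat.log 2 n := by
        refine Nat.mul_le_mul_right _ (Nat.pow_le_pow_left ?_ k)
        calc 2 * ((A₂ + 2) * (d + 1) * B ^ (A₂ + 1)) * (C₁ * B ^ C₁) ^ 2
            = (2 * C₁ ^ 2 * (A₂ + 2)) * (d + 1) * B ^ (A₂ + 1 + 2 * C₁) := by
              rw [mul_pow C₁, ← pow_mul B, pow_add B (A₂ + 1), mul_comm C₁ 2]
              ring
          _ ≤ C * (d + 1) * B ^ C := by
              refine Nat.mul_le_mul (Nat.mul_le_mul_right _ (by omega)) ?_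
              exact Nat.pow_le_pow_right hB1 (by omega)

theorem fam_small (s n₀ : ℕ) (hs : 1 ≤ s) : ∃ C : ℕ, ∀ n w d : ℕ, n ≤ n₀ →
    2 * gb s n w d ≤ C * (d + 1) * (w + 1) ^ C := by
  obtain ⟨A, hA⟩ := ed_le s
  have h1 : PB (ed s) := PB.of_le hA
  have h2 : PB fun w => 2 * ((qex s w + n₀ + 1) * (ed s w ^ (n₀ + 1)) ^ 2) :=
    (PB.const 2).mul (((((pb_qex s).add (PB.const n₀)).add (PB.const 1))).mul ((h1.pow (n₀ + 1)).pow 2))
  obtain ⟨C, hC⟩ := h2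
  refine ⟨C, fun n w d hn => ?_⟩
  set W : ℕ := max w 1 with hW
  have hW1 : 1 ≤ W := le_max_right _ _
  have hWw : W ≤ w + 1 := by omega
  have h3 := hC W hW1
  have h4 : rounds (s * 2 ^ s) n ≤ n₀ + 1 := by
    unfold rounds
    have e1 : Nat.log 2 n / (s * 2 ^ s) ≤ Nat.log 2 n := Nat.div_le_self _ _
    have e2 : Nat.log 2 n ≤ n := Nat.log_le_self 2 n
    omega
  have h5 : ed s W ^ rounds (s * 2 ^ s) n ≤ ed s W ^ (n₀ + 1) :=
    Nat.pow_le_pow_right (ed_pos s W) h4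
  have h6 : gb s n w d ≤ (d + 1) * ((qex s W + n₀ + 1) * (ed s W ^ (n₀ + 1)) ^ 2) := by
    rw [gb, ← hW, ← mul_assoc]
    refine Nat.mul_le_mul ?_ (Nat.pow_le_pow_left h5 2)
    have e3 : n * d ≤ n₀ * d := Nat.mul_le_mul_right _ hn
    nlinarith [Nat.zero_le (qex s W * d), Nat.zero_le (qex s W)]
  have h3' : 2 * ((qex s W + n₀ + 1) * (ed s W ^ (n₀ + 1)) ^ 2) ≤ C * W ^ C := h3
  calc 2 * gb s n w d ≤ 2 * ((d + 1) * ((qex s W + n₀ + 1) * (ed s W ^ (n₀ + 1)) ^ 2)) :=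
        Nat.mul_le_mul_left _ h6
    _ = (d + 1) * (2 * ((qex s W + n₀ + 1) * (ed s W ^ (n₀ + 1)) ^ 2)) := by ring
    _ ≤ (d + 1) * (C * W ^ C) := Nat.mul_le_mul_left _ h3'
    _ ≤ (d + 1) * (C * (w + 1) ^ C) :=
        Nat.mul_le_mul_left _ (Nat.mul_le_mul_left _ (Nat.pow_le_pow_left hWw C))
    _ = C * (d + 1) * (w + 1) ^ C := by ring

end Pool.Agent.KNR
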