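import Pool.Agent.KNR.Gen

/-!
Divisors of products of polynomials with prefix decompositions.
-/

set_option autoImplicit false

namespace Pool.Agent.KNR

open MvPolynomial

universe u

private theorem dvd_eval {K : Type u} [Field K] {n : ℕ} (g : Fin n → Polynomial ℤ) (v : ℤ)
    (f : MvPolynomial (Fin n) K) :
    (aeval (fun i : Fin n => (g i).map (Int.castRingHom K)) f).eval ((v : ℤ) : K) =
      eval (fun i : Fin n => (((g i).eval v : ℤ) : K)) f := by
  induction f using MvPolynomial.induction_on with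
  | C a => simp
  | add p q hp hq => rw [map_add, Polynomial.eval_add, hp, hq, map_add]
  | mul_X p i hp =>
    rw [map_mul, Polynomial.eval_mul, hp, aeval_X, map_mul, eval_X]
    congr 1
    rw [Polynomial.eval_intCast_map]
    rfl

/-- degree of a substitution of univariate polynomials of degree at most `E` -/
theorem natDegree_aeval_le' {K : Type u} [Field K] {n d E : ℕ} (g : Fin n → Polynomial K)
    (hg : ∀ i, (g i).natDegree ≤ E) (f : MvPolynomial (Fin n) K) (hd : f.totalDegree ≤ d) :
    (aeval g f).natDegree ≤ d * E := by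
  classical
  rw [aeval_def, eval₂_eq]
  refine Polynomial.natDegree_sum_le_of_forall_le _ _ fun m hm => ?_
  refine (Polynomial.natDegree_mul_le).trans ?_
  have h1 : (algebraMap K (Polynomial K) (coeff m f)).natDegree = 0 := Polynomial.natDegree_C _
  rw [h1, zero_add]
  refine (Polynomial.natDegree_prod_le _ _).trans ?_
  have h2 : ∀ i ∈ m.support, (g i ^ m i).natDegree ≤ m i * E := by
    intro i _
    refine Polynomial.natDegree_pow_le.trans ?_
    exact Nat.mul_le_mul_left _ (hg i)
  refine (Finset.sum_le_sum h2).trans ?_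
  rw [← Finset.sum_mul]
  refine Nat.mul_le_mul_right _ ?_
  refine le_trans ?_ hd
  exact le_totalDegree hm

theorem gen_ne_dvd (K : Type u) [Field K] [CharZero K] {N w : ℕ} {c : ℕ → Polynomial ℤ} (hN : 0 < N)
    (hc : Hits N w c) (R n : ℕ) (hn : n ≤ N ^ R) (s : Multiset (MvPolynomial (Fin n) K))
    (hs : ∀ f ∈ s, f ≠ 0 ∧ PCut w f) (g : MvPolynomial (Fin n) K) (hg : g ∣ s.prod) :
    aeval (fun i : Fin n => (itc N c R i).map (Int.castRingHom K)) g ≠ (0 : Polynomial K) := by
  set φ : MvPolynomial (Fin n) K →ₐ[K] Polynomial K :=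
    aeval (fun i : Fin n => (itc N c R i).map (Int.castRingHom K)) with hφ
  have h1 : ∀ s : Multiset (MvPolynomial (Fin n) K), (∀ f ∈ s, f ≠ 0 ∧ PCut w f) →
      φ s.prod ≠ 0 := by
    intro s
    induction s using Multiset.induction_on with
    | empty => intro _; rw [Multiset.prod_zero, map_one]; exact one_ne_zero
    | cons a s ih =>
      intro hs
      rw [Multiset.prod_cons, map_mul]
      refine mul_ne_zero ?_ (ih fun f hf => hs f (Multiset.mem_cons_of_mem hf))
      obtain ⟨h2, h3⟩ := hs a (Multiset.mem_cons_self a s)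
      exact gen_ne K hN hc R n hn a h2 h3
  intro h0
  apply h1 s hs
  obtain ⟨q, hq⟩ := hg
  rw [hq, map_mul, h0, zero_mul]

/-- the hitting set for divisors of products -/
theorem pts_hit_dvd (K : Type u) [Field K] [CharZero K] {N w D : ℕ} {c : ℕ → Polynomial ℤ} (hN : 0 < N)
    (hc : Hits N w c) (hD : ∀ i < N, (c i).natDegree ≤ D) (R n : ℕ) (hn : n ≤ N ^ R)
    (s : Multiset (MvPolynomial (Fin n) K)) (hs : ∀ f ∈ s, f ≠ 0 ∧ PCut w f)
    (g : MvPolynomial (Fin n) K) (hg : g ∣ s.prod) (e : ℕ) (he : g.totalDegree ≤ e) :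
    ∃ u ≤ e * D ^ R, eval (fun i : Fin n => (((itc N c R i).eval (u : ℤ) : ℤ) : K)) g ≠ 0 := by
  have h1 := gen_ne_dvd K hN hc R n hn s hs g hg
  by_contra hcon
  push Not at hcon
  apply h1
  refine Polynomial.eq_zero_of_natDegree_lt_card_of_eval_eq_zero' _
    ((Finset.range (e * D ^ R + 1)).map ⟨fun u : ℕ => (u : K), Nat.cast_injective⟩) ?_ ?_
  · intro x hx
    rw [Finset.mem_map] at hx
    obtain ⟨u, hu, rfl⟩ := hx
    rw [Finset.mem_range] at hu
    have h2 := hcon u (by omega)
    rw [← dvd_eval (fun i : Fin n => itc N c R i)] at h2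
    simpa using h2
  · rw [Finset.card_map, Finset.card_range]
    refine Nat.lt_succ_of_le (natDegree_aeval_le' _ (fun i => ?_) g he)
    exact (Polynomial.natDegree_map_le).trans (natDegree_itc hN hD R i)

end Pool.Agent.KNR
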