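import Pool.Agent.KNR.Dvd
import Pool.Agent.KNR.Arith
import Pool.Agent.KNO.Nu
import Pool.Agent.KNO.Cvt
import Pool.Agent.KNO.WinList

/-!
The families of points: definitions, and the hitting property for every parameter `s`.
-/

set_option autoImplicit false

namespace Pool.Agent.KNR

open MvPolynomial
open Pool.Agent.KNO.Win

universe u

/-- the degree of a window curve -/
def dw (N w h : ℕ) : ℕ := N * w * h * (N * w) + (N * w * h + h)

/-- the window curves iterated `R` times, digits of `i` in base `N` -/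
def itv (N w : ℕ) (P : List (List ℤ)) : ℕ → ℕ → ℤ → ℤ
  | 0, _, v => v
  | R + 1, i, v => evalWin N w P (i % N) (itv N w P R (i / N) v)

/-- number of variables of the core -/
def nn (s : ℕ) : ℕ := (2 ^ s) ^ (2 ^ s)

/-- points of the core -/
def corep (s w : ℕ) : List (List ℤ) :=
  KNO.core (2 ^ s) (KNO.nuf (2 ^ s) (nn s)) w (KNO.nph (2 ^ s) (2 ^ s)) (nn s) (nn s * w)

/-- the points for the parameter `s`, width `w ≥ 1` -/
def fam1 (s n w d : ℕ) : List (List ℤ) :=
  (List.range (n * d * dw (nn s) w (corep s w).length ^ rounds (s * 2 ^ s) n + 1)).map fun v : ℕ =>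
    (List.range n).map fun i : ℕ => itv (nn s) w (corep s w) (rounds (s * 2 ^ s) n) i (v : ℤ)

/-- the points for the parameter `s` -/
def fam (s n w d : ℕ) : List (List ℤ) := fam1 s n (max w 1) d

theorem eval_itc (N w : ℕ) (P : List (List ℤ)) (R : ℕ) :
    ∀ (i : ℕ) (v : ℤ), (itc N (winCurve N w P) R i).eval v = itv N w P R i v := by
  induction R with
  | zero => intro i v; simp [itc, itv]
  | succ R ih => intro i v; rw [itc, itv, Polynomial.eval_comp, ih, winCurve_eval]

theorem nn_pos (s : ℕ) : 0 < nn s := by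
  unfold nn; positivity

theorem nn_eq (s : ℕ) : nn s = 2 ^ (s * 2 ^ s) := by
  unfold nn; rw [← pow_mul]

theorem le_rounds_nn {s : ℕ} (hs : 1 ≤ s) (n : ℕ) : n ≤ nn s ^ rounds (s * 2 ^ s) n := by
  rw [nn_eq]
  exact le_rounds (by positivity) n

theorem mem_fam {s n w d : ℕ} (p : List ℤ) : p ∈ fam s n w d ↔ ∃ v : ℕ,
    v ≤ n * d * dw (nn s) (max w 1) (corep s (max w 1)).length ^ rounds (s * 2 ^ s) n ∧
    p = (List.range n).map fun i : ℕ => (itc (nn s) (winCurve (nn s) (max w 1) (corep s (max w 1)))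
      (rounds (s * 2 ^ s) n) i).eval (v : ℤ) := by
  rw [fam, fam1, List.mem_map]
  constructor
  · rintro ⟨v, hv, rfl⟩
    rw [List.mem_range] at hv
    exact ⟨v, Nat.lt_succ_iff.1 hv, List.map_congr_left fun i _ => (eval_itc _ _ _ _ _ _).symm⟩
  · rintro ⟨v, hv, rfl⟩
    exact ⟨v, List.mem_range.2 (Nat.lt_succ_of_le hv), List.map_congr_left fun i _ => (eval_itc _ _ _ _ _ _).symm⟩

theorem length_fam {s n w d : ℕ} : (fam s n w d).length =
    n * d * dw (nn s) (max w 1) (corep s (max w 1)).length ^ rounds (s * 2 ^ s) n + 1 := by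
  rw [fam, fam1, List.length_map, List.length_range]

theorem fam_length {s n w d : ℕ} : ∀ p ∈ fam s n w d, p.length = n := by
  intro p hp
  rw [mem_fam] at hp
  obtain ⟨v, _, rfl⟩ := hp
  rw [List.length_map, List.length_range]

theorem hits_crv {s w : ℕ} (hs : 1 ≤ s) (hw : 1 ≤ w) : Hits (nn s) w (winCurve (nn s) w (corep s w)) := by
  refine winCurve_hits (nn_pos s) _ fun H hH hd hcut => ?_
  have h2 : 2 ≤ 2 ^ s := by
    calc 2 = 2 ^ 1 := rfl
      _ ≤ 2 ^ s := Nat.pow_le_pow_right (by norm_num) hs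
  exact KNO.core_fin (2 ^ s) (2 ^ s) w (KNO.nuf (2 ^ s) (nn s)) h2 hw
    (KNO.nu_ok (2 ^ s) (nn s) w (by omega) hw) H hH hd hcut

theorem PCut.mono {K : Type*} [Field K] {n w w' : ℕ} {f : MvPolynomial (Fin n) K} (hf : PCut w f)
    (hw : w ≤ w') : PCut w' f := by
  intro p
  obtain ⟨g, h, hg, hh, hgh⟩ := hf p
  refine ⟨fun j => if hj : (j : ℕ) < w then g ⟨j, hj⟩ else 0,
    fun j => if hj : (j : ℕ) < w then h ⟨j, hj⟩ else 0, ?_, ?_, ?_⟩
  · intro j i hi
    by_cases hj : (j : ℕ) < w
    · simp only [hj, dif_pos] at hi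
      exact hg _ i hi
    · simp only [hj, dif_neg, not_false_eq_true, vars_0] at hi
      exact absurd hi (Finset.notMem_empty i)
  · intro j i hi
    by_cases hj : (j : ℕ) < w
    · simp only [hj, dif_pos] at hi
      exact hh _ i hi
    · simp only [hj, dif_neg, not_false_eq_true, vars_0] at hi
      exact absurd hi (Finset.notMem_empty i)
  · obtain ⟨e, rfl⟩ := Nat.exists_eq_add_of_le hw
    rw [Fin.sum_univ_add, hgh]
    rw [Finset.sum_eq_zero (s := Finset.univ) (f := fun i : Fin e => _), add_zero]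
    · refine Finset.sum_congr rfl fun j _ => ?_
      simp
    · intro i _
      simp

/-- the points of `fam s n w d` hit all divisors, of total degree at most `n d`, of products of
nonzero polynomials with prefix decompositions of length `w` -/
theorem fam_hits_dvd (K : Type u) [Field K] [CharZero K] {s n w d : ℕ} (hs : 1 ≤ s)
    (S : Multiset (MvPolynomial (Fin n) K)) (hS : ∀ f ∈ S, f ≠ 0 ∧ PCut w f)
    (g : MvPolynomial (Fin n) K) (hg : g ∣ S.prod) (hd : g.totalDegree ≤ n * d) :
    ∃ p ∈ fam s n w d, eval (fun i : Fin n => ((p.getD (i : ℕ) 0 : ℤ) : K)) g ≠ 0 := by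
  have hw : 1 ≤ max w 1 := le_max_right _ _
  obtain ⟨v, hv, hev⟩ := pts_hit_dvd K (nn_pos s) (hits_crv hs hw)
    (fun i _ => winCurve_natDegree (nn s) (max w 1) (corep s (max w 1)) i) (rounds (s * 2 ^ s) n) n
    (le_rounds_nn hs n) S (fun f hf => ⟨(hS f hf).1, (hS f hf).2.mono (le_max_left _ _)⟩) g hg (n * d) hd
  refine ⟨_, (mem_fam _).2 ⟨v, hv, rfl⟩, ?_⟩
  convert hev using 3
  funext i
  rw [List.getD_eq_getElem _ _ (by rw [List.length_map, List.length_range]; exact i.isLt),
    List.getElem_map, List.getElem_range]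

end Pool.Agent.KNR
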