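import Pool.Agent.KNR.Ncp

/-!
Black-box identity testing for noncommutative algebraic branching programs by matrices.
-/

set_option autoImplicit false

namespace Pool.Agent.KNR

open MvPolynomial

universe u

/-- the `(D + 1) x (D + 1)` matrix with entries `(x r) ^ i` at the places `(r, r + 1)` -/
def ncMat {K : Type*} [Field K] (D : ℕ) (x : ℕ → K) (i : ℕ) :
    Matrix (Fin (D + 1)) (Fin (D + 1)) K :=
  Matrix.of fun r s => if (s : ℕ) = (r : ℕ) + 1 then x (r : ℕ) ^ i else 0

/-- the value of a noncommutative polynomial (coefficients of words) at a tuple of matrices -/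
noncomputable def ncEval {K : Type*} [Field K] {n m : ℕ} (X : Fin n → Matrix (Fin m) (Fin m) K)
    (f : List (Fin n) →₀ K) : Matrix (Fin m) (Fin m) K :=
  f.sum fun a c => c • (a.map X).prod

theorem ncMat_prod {K : Type*} [Field K] {n : ℕ} (D : ℕ) (x : ℕ → K) (a : List (Fin n)) :
    ∀ r s : Fin (D + 1), (a.map (fun i : Fin n => ncMat D x (i : ℕ))).prod r s =
      if (s : ℕ) = (r : ℕ) + a.length then
        ∏ l : Fin a.length, x ((r : ℕ) + l) ^ ((a.get l : Fin n) : ℕ) else 0 := by
  induction a with
  | nil =>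
    intro r s
    simp only [List.map_nil, List.prod_nil, List.length_nil, add_zero, Finset.univ_eq_empty,
      Finset.prod_empty]
    rw [Matrix.one_apply]
    by_cases h : r = s
    · rw [if_pos h, if_pos (by rw [h])]
    · rw [if_neg h, if_neg]
      intro h2
      exact h (Fin.ext h2.symm)
  | cons b a ih =>
    intro r s
    rw [List.map_cons, List.prod_cons, Matrix.mul_apply]
    by_cases hr : (r : ℕ) + 1 < D + 1
    · rw [Finset.sum_eq_single (⟨(r : ℕ) + 1, hr⟩ : Fin (D + 1))]
      · rw [ih]
        simp only [ncMat, Matrix.of_apply, if_true, List.length_cons]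
        by_cases hs : (s : ℕ) = (r : ℕ) + (a.length + 1)
        · rw [if_pos (by omega), if_pos hs, Fin.prod_univ_succ]
          congr 1
          refine Finset.prod_congr rfl fun l _ => ?_
          simp only [Fin.val_succ, List.get_eq_getElem, List.getElem_cons_succ]
          congr 2
          omega
        · rw [if_neg (by omega), if_neg hs, mul_zero]
      · intro t _ ht
        simp only [ncMat, Matrix.of_apply]
        rw [if_neg, zero_mul]
        intro h
        exact ht (Fin.ext h)
      · intro h
        exact absurd (Finset.mem_univ _) h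
    · rw [if_neg]
      · refine Finset.sum_eq_zero fun t _ => ?_
        simp only [ncMat, Matrix.of_apply]
        rw [if_neg, zero_mul]
        have := t.isLt
        omega
      · have := s.isLt
        simp only [List.length_cons]
        omega

theorem ncEval_apply {K : Type*} [Field K] {n : ℕ} (D m : ℕ) (hm : m < D + 1) (x : ℕ → K)
    (f : List (Fin n) →₀ K) :
    ncEval (fun i : Fin n => ncMat D x (i : ℕ)) f 0 ⟨m, hm⟩ =
      eval (fun l : Fin m => x l) (ncPol f m) := by
  classical
  rw [ncEval, Finsupp.sum, Matrix.sum_apply]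
  have h1 : eval (fun l : Fin m => x l) (ncPol f m) =
      ∑ a : Fin m → Fin n, f (List.ofFn a) * ∏ l : Fin m, x l ^ ((a l : Fin n) : ℕ) := by
    rw [ncPol, map_sum]
    refine Finset.sum_congr rfl fun a _ => ?_
    rw [eval_monomial]
    congr 1
    rw [Finsupp.prod_fintype]
    · rfl
    · intro i; exact pow_zero _
  rw [h1]
  have h2 : ∀ a ∈ f.support, (f a • (a.map (fun i : Fin n => ncMat D x (i : ℕ))).prod) 0 ⟨m, hm⟩ =
      if a.length = m then f a * ∏ l : Fin a.length, x l ^ ((a.get l : Fin n) : ℕ) else 0 := by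
    intro a _
    rw [Matrix.smul_apply, ncMat_prod, smul_eq_mul]
    simp only [Fin.val_zero, zero_add]
    by_cases h : a.length = m
    · rw [if_pos h.symm, if_pos h]
    · rw [if_neg h, if_neg (fun h' => h h'.symm), mul_zero]
  rw [Finset.sum_congr rfl h2, ← Finset.sum_filter]
  symm
  refine Finset.sum_bij_ne_zero (fun a _ _ => List.ofFn a) ?_ ?_ ?_ ?_
  · intro a _ ha
    rw [Finset.mem_filter, Finsupp.mem_support_iff]
    exact ⟨fun h => ha (by rw [h, zero_mul]), List.length_ofFn⟩
  · intro a _ _ b _ _ h
    exact List.ofFn_injective h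
  · intro b hb _
    rw [Finset.mem_filter] at hb
    obtain ⟨hb1, hb2⟩ := hb
    subst hb2
    refine ⟨fun l => b.get l, Finset.mem_univ _, ?_, List.ofFn_get b⟩
    intro h
    rename_i hne
    apply hne
    rw [← h]
    congr 1
    exact congrArg f (List.ofFn_get b).symm
  · intro a _ _
    congr 1
    have hlen : (List.ofFn a).length = m := List.length_ofFn
    rw [← Fin.prod_congr' _ hlen.symm]
    refine Finset.prod_congr rfl fun l _ => ?_
    simp

/-- black-box identity testing for noncommutative polynomials with Nisan ranks at most `w` -/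
theorem nc_hit (K : Type u) [Field K] [CharZero K] {N w E : ℕ} {c : ℕ → Polynomial ℤ} (hN : 0 < N)
    (hc : Hits N w c) (hE : ∀ i < N, (c i).natDegree ≤ E) (R n D : ℕ) (hD : D ≤ N ^ R)
    (f : List (Fin n) →₀ K) (hf : f ≠ 0) (hdeg : ∀ a ∈ f.support, a.length ≤ D) (hw : NRank w f) :
    ∃ u ≤ D * n * E ^ R,
      ncEval (fun i : Fin n => ncMat D (fun l => (((itc N c R l).eval (u : ℤ) : ℤ) : K)) (i : ℕ)) f ≠
        0 := by
  obtain ⟨a, ha⟩ : ∃ a, f a ≠ 0 := by
    by_contra hcon
    push Not at hcon
    exact hf (Finsupp.ext hcon)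
  have hal : a.length ≤ D := hdeg a (Finsupp.mem_support_iff.2 ha)
  obtain ⟨u, hu, hev⟩ := pts_hit K hN hc hE R a.length (hal.trans hD) (ncPol f a.length) n
    (ncPol_ne f a ha) (pcut_ncPol f hw _) (degreeOf_ncPol f _)
  refine ⟨u, hu.trans (Nat.mul_le_mul_right _ (Nat.mul_le_mul_right _ hal)), ?_⟩
  intro h0
  apply hev
  have h1 := ncEval_apply D a.length (Nat.lt_succ_of_le hal)
    (fun l => (((itc N c R l).eval (u : ℤ) : ℤ) : K)) f
  rw [h0, Matrix.zero_apply] at h1
  exact h1.symm

end Pool.Agent.KNR
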