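import Pool.Agent.KNR.Fam
import Pool.Agent.KNR.Nc

/-!
The families of points and noncommutative polynomials.
-/

set_option autoImplicit false

namespace Pool.Agent.KNR

open Pool.Agent.KNO.Win

universe u

theorem NRank.mono {K : Type*} [Field K] {n w w' : ℕ} {f : List (Fin n) →₀ K} (hf : NRank w f)
    (hw : w ≤ w') : NRank w' f := by
  intro p q
  obtain ⟨g, h, hgh⟩ := hf p q
  refine ⟨fun j a => if hj : (j : ℕ) < w then g ⟨j, hj⟩ a else 0,
    fun j a => if hj : (j : ℕ) < w then h ⟨j, hj⟩ a else 0, fun a b ha hb => ?_⟩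
  obtain ⟨e, rfl⟩ := Nat.exists_eq_add_of_le hw
  rw [Fin.sum_univ_add, hgh a b ha hb]
  rw [Finset.sum_eq_zero (s := Finset.univ) (f := fun i : Fin e => _), add_zero]
  · refine Finset.sum_congr rfl fun j _ => ?_
    simp
  · intro i _
    simp

theorem fam_hits_nc (K : Type u) [Field K] [CharZero K] {s n w m : ℕ} (hs : 1 ≤ s)
    (f : List (Fin m) →₀ K) (hf : f ≠ 0) (hdeg : ∀ a ∈ f.support, a.length ≤ n) (hw : NRank w f) :
    ∃ p ∈ fam s n w m,
      ncEval (fun i : Fin m => ncMat n (fun l => ((p.getD l 0 : ℤ) : K)) (i : ℕ)) f ≠ 0 := by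
  have hw1 : 1 ≤ max w 1 := le_max_right _ _
  obtain ⟨v, hv, hev⟩ := nc_hit K (nn_pos s) (hits_crv hs hw1)
    (fun i _ => winCurve_natDegree (nn s) (max w 1) (corep s (max w 1)) i) (rounds (s * 2 ^ s) n) m n
    (le_rounds_nn hs n) f hf hdeg (hw.mono (le_max_left _ _))
  refine ⟨_, (mem_fam _).2 ⟨v, hv, rfl⟩, ?_⟩
  convert hev using 3
  rename_i i
  ext r t
  simp only [ncMat, Matrix.of_apply]
  by_cases h : (t : ℕ) = (r : ℕ) + 1
  · rw [if_pos h, if_pos h]
    congr 2
    have hr : (r : ℕ) < n := by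
      have := t.isLt
      omega
    rw [List.getD_eq_getElem _ _ (by rw [List.length_map, List.length_range]; exact hr),
      List.getElem_map, List.getElem_range]
  · rw [if_neg h, if_neg h]

end Pool.Agent.KNR
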