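import Pool.Agent.KNR.Iter

/-!
The iterated curve over every field of characteristic zero: degree, size, hitting sets.
-/

set_option autoImplicit false

namespace Pool.Agent.KNR

open MvPolynomial

universe u

private theorem gen_eval {K : Type u} [Field K] {n : ℕ} (g : Fin n → Polynomial ℤ) (v : ℤ)
    (f : MvPolynomial (Fin n) K) :
    (aeval (fun i : Fin n => (g i).map (Int.castRingHom K)) f).eval ((v : ℤ) : K) =
      eval (fun i : Fin n => (((g i).eval v : ℤ) : K)) f := by
  induction f using MvPolynomial.induction_on with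
  | C a => simp
  | add p q hp hq => rw [map_add, Polynomial.eval_add, hp, hq, map_add]
  | mul_X p i hp =>
    rw [map_mul, Polynomial.eval_mul, hp, aeval_X, map_mul, eval_X]
    congr 1
    rw [Polynomial.eval_intCast_map]
    rfl

/-- degree of a substitution of univariate polynomials of degree at most `E` -/
theorem natDegree_aeval_le {K : Type u} [Field K] {n d E : ℕ} (g : Fin n → Polynomial K)
    (hg : ∀ i, (g i).natDegree ≤ E) (f : MvPolynomial (Fin n) K) (hd : ∀ i, f.degreeOf i ≤ d) :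
    (aeval g f).natDegree ≤ n * d * E := by
  classical
  rw [aeval_def, eval₂_eq]
  refine Polynomial.natDegree_sum_le_of_forall_le _ _ fun m hm => ?_
  refine (Polynomial.natDegree_mul_le).trans ?_
  have h1 : (algebraMap K (Polynomial K) (coeff m f)).natDegree = 0 := Polynomial.natDegree_C _
  rw [h1, zero_add]
  refine (Polynomial.natDegree_prod_le _ _).trans ?_
  have h2 : ∀ i ∈ m.support, (g i ^ m i).natDegree ≤ d * E := by
    intro i _
    refine Polynomial.natDegree_pow_le.trans ?_
    exact Nat.mul_le_mul ((monomial_le_degreeOf i hm).trans (hd i)) (hg i)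
  refine (Finset.sum_le_card_nsmul _ _ _ h2).trans ?_
  rw [smul_eq_mul, mul_assoc]
  refine Nat.mul_le_mul_right _ ?_
  exact (Finset.card_le_univ _).trans (by simp)

theorem natDegree_itc {N D : ℕ} {c : ℕ → Polynomial ℤ} (hN : 0 < N)
    (hD : ∀ i < N, (c i).natDegree ≤ D) (R : ℕ) : ∀ i, (itc N c R i).natDegree ≤ D ^ R := by
  induction R with
  | zero => intro i; simp [itc]
  | succ R ih =>
    intro i
    rw [itc, Polynomial.natDegree_comp, pow_succ, mul_comm (D ^ R)]
    exact Nat.mul_le_mul (hD _ (Nat.mod_lt _ hN)) (ih _)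

theorem abs_itc {N M D : ℕ} {c : ℕ → Polynomial ℤ} (hN : 0 < N)
    (hc : ∀ i < N, ∀ v : ℤ, |(c i).eval v| ≤ (M : ℤ) * (|v| + 1) ^ D) (v : ℤ) (R : ℕ) :
    ∀ i, |(itc N c R i).eval v| + 1 ≤ (((M : ℤ) + 1) * (|v| + 1)) ^ ((D + 1) ^ R) := by
  have hv : (1 : ℤ) ≤ |v| + 1 := by
    have := abs_nonneg v
    omega
  have hM : (1 : ℤ) ≤ (M : ℤ) + 1 := by
    have := Int.natCast_nonneg M
    omega
  have hQ : (1 : ℤ) ≤ ((M : ℤ) + 1) * (|v| + 1) := one_le_mul_of_one_le_of_one_le hM hv
  induction R with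
  | zero =>
    intro i
    simp only [itc, Polynomial.eval_X, pow_zero, pow_one]
    nlinarith [Int.natCast_nonneg M, abs_nonneg v]
  | succ R ih =>
    intro i
    rw [itc, Polynomial.eval_comp]
    have h1 := hc (i % N) (Nat.mod_lt _ hN) ((itc N c R (i / N)).eval v)
    have h2 := ih (i / N)
    set Q : ℤ := ((M : ℤ) + 1) * (|v| + 1) with hQd
    set T : ℤ := |(itc N c R (i / N)).eval v| + 1 with hT
    have hT1 : (1 : ℤ) ≤ T := by
      have := abs_nonneg ((itc N c R (i / N)).eval v)
      omega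
    have h3 : T ^ D ≤ (Q ^ ((D + 1) ^ R)) ^ D := pow_le_pow_left₀ (by omega) h2 D
    have h4 : (1 : ℤ) ≤ T ^ D := one_le_pow₀ hT1
    have h5 : ((M : ℤ) + 1) ≤ Q := by
      rw [hQd]
      nlinarith
    calc |(c (i % N)).eval ((itc N c R (i / N)).eval v)| + 1
        ≤ (M : ℤ) * T ^ D + 1 := by linarith
      _ ≤ ((M : ℤ) + 1) * T ^ D := by nlinarith
      _ ≤ Q * (Q ^ ((D + 1) ^ R)) ^ D := by
          refine mul_le_mul h5 h3 (by positivity) (by omega)
      _ = Q ^ (1 + (D + 1) ^ R * D) := by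
          rw [← pow_mul, pow_add, pow_one]
      _ ≤ Q ^ ((D + 1) ^ (R + 1)) := by
          refine pow_le_pow_right₀ hQ ?_
          rw [pow_succ]
          have : 1 ≤ (D + 1) ^ R := Nat.one_le_pow _ _ (by omega)
          nlinarith

/-- the generator -/
theorem gen_ne (K : Type u) [Field K] [CharZero K] {N w : ℕ} {c : ℕ → Polynomial ℤ} (hN : 0 < N)
    (hc : Hits N w c) (R n : ℕ) (hn : n ≤ N ^ R) (f : MvPolynomial (Fin n) K) (hf : f ≠ 0)
    (hw : PCut w f) :
    aeval (fun i : Fin n => (itc N c R i).map (Int.castRingHom K)) f ≠ (0 : Polynomial K) := by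
  obtain ⟨f', hf', hw', _, hev⟩ := transfer K hf hw
  obtain ⟨z, hz⟩ := iter hN hc R n hn f' hf' hw'.cut
  have h1 : aeval (fun i : Fin n => (itc N c R i).map (Int.castRingHom ℂ)) f' ≠ (0 : Polynomial ℂ) := by
    intro h0
    apply hz
    have h2 : ∀ q : MvPolynomial (Fin n) ℂ,
        (aeval (fun i : Fin n => (itc N c R i).map (Int.castRingHom ℂ)) q).eval z =
          eval (fun i : Fin n => ev (itc N c R i) z) q := by
      intro q
      induction q using MvPolynomial.induction_on with
      | C a => simp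
      | add p q hp hq => rw [map_add, Polynomial.eval_add, hp, hq, map_add]
      | mul_X p i hp => rw [map_mul, Polynomial.eval_mul, hp, aeval_X, map_mul, eval_X]; rfl
    rw [← h2, h0, Polynomial.eval_zero]
  have h3 : ∃ v : ℤ, (aeval (fun i : Fin n => (itc N c R i).map (Int.castRingHom ℂ)) f').eval
      ((v : ℤ) : ℂ) ≠ 0 := by
    by_contra hcon
    push Not at hcon
    apply h1
    apply Polynomial.eq_zero_of_infinite_isRoot
    refine Set.Infinite.mono (s := Set.range (fun v : ℤ => ((v : ℤ) : ℂ))) ?_ ?_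
    · rintro _ ⟨v, rfl⟩
      exact hcon v
    · exact Set.infinite_range_of_injective Int.cast_injective
  obtain ⟨v, hv⟩ := h3
  rw [gen_eval (fun i : Fin n => itc N c R i)] at hv
  have h4 := hev (fun i => (itc N c R i).eval v) hv
  intro h0
  apply h4
  rw [← gen_eval (fun i : Fin n => itc N c R i), h0, Polynomial.eval_zero]

/-- the hitting set -/
theorem pts_hit (K : Type u) [Field K] [CharZero K] {N w D : ℕ} {c : ℕ → Polynomial ℤ} (hN : 0 < N)
    (hc : Hits N w c) (hD : ∀ i < N, (c i).natDegree ≤ D) (R n : ℕ) (hn : n ≤ N ^ R)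
    (f : MvPolynomial (Fin n) K) (d : ℕ) (hf : f ≠ 0) (hw : PCut w f) (hd : ∀ i, f.degreeOf i ≤ d) :
    ∃ u ≤ n * d * D ^ R, eval (fun i : Fin n => (((itc N c R i).eval (u : ℤ) : ℤ) : K)) f ≠ 0 := by
  have h1 := gen_ne K hN hc R n hn f hf hw
  by_contra hcon
  push Not at hcon
  apply h1
  refine Polynomial.eq_zero_of_natDegree_lt_card_of_eval_eq_zero' _
    ((Finset.range (n * d * D ^ R + 1)).map ⟨fun u : ℕ => (u : K), Nat.cast_injective⟩) ?_ ?_
  · intro x hx
    rw [Finset.mem_map] at hx
    obtain ⟨u, hu, rfl⟩ := hx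
    rw [Finset.mem_range] at hu
    have h2 := hcon u (by omega)
    rw [← gen_eval (fun i : Fin n => itc N c R i)] at h2
    simpa using h2
  · rw [Finset.card_map, Finset.card_range]
    refine Nat.lt_succ_of_le (natDegree_aeval_le _ (fun i => ?_) f hd)
    exact (Polynomial.natDegree_map_le).trans (natDegree_itc hN hD R i)

end Pool.Agent.KNR
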