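import Pool.Agent.KNR.Hit

/-!
The generators behind the families of points.
-/

set_option autoImplicit false

namespace Pool.Agent.KNR

open MvPolynomial
open Pool.Agent.KNO.Win

universe u

/-- the generator: the coordinates of the points of `fam s n w d` are its values at `0, 1, 2, …` -/
noncomputable def gen (s n w i : ℕ) : Polynomial ℤ :=
  itc (nn s) (winCurve (nn s) (max w 1) (corep s (max w 1))) (rounds (s * 2 ^ s) n) i

theorem gen_eval (s n w i : ℕ) (v : ℤ) :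
    (gen s n w i).eval v = itv (nn s) (max w 1) (corep s (max w 1)) (rounds (s * 2 ^ s) n) i v :=
  eval_itc _ _ _ _ _ _

theorem gen_hits (K : Type u) [Field K] [CharZero K] {s n w : ℕ} (hs : 1 ≤ s)
    (S : Multiset (MvPolynomial (Fin n) K)) (hS : ∀ f ∈ S, f ≠ 0 ∧ PCut w f)
    (g : MvPolynomial (Fin n) K) (hg : g ∣ S.prod) :
    aeval (fun i : Fin n => (gen s n w (i : ℕ)).map (Int.castRingHom K)) g ≠ (0 : Polynomial K) := by
  have hw : 1 ≤ max w 1 := le_max_right _ _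
  exact gen_ne_dvd K (nn_pos s) (hits_crv hs hw) (rounds (s * 2 ^ s) n) n
    (le_rounds_nn hs n) S (fun f hf => ⟨(hS f hf).1, (hS f hf).2.mono (le_max_left _ _)⟩) g hg

theorem mem_fam_gen {s n w d : ℕ} (p : List ℤ) (hp : p ∈ fam s n w d) : ∃ v : ℕ,
    p = (List.range n).map fun i : ℕ => (gen s n w i).eval (v : ℤ) := by
  rw [mem_fam] at hp
  obtain ⟨v, _, rfl⟩ := hp
  exact ⟨v, rfl⟩

theorem natDegree_gen (s n w i : ℕ) :
    (gen s n w i).natDegree ≤ ed s (max w 1) ^ rounds (s * 2 ^ s) n := by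
  refine (natDegree_itc (nn_pos s)
    (fun i _ => winCurve_natDegree (nn s) (max w 1) (corep s (max w 1)) i) _ i).trans ?_
  exact Nat.pow_le_pow_left (by unfold ed dw; omega) _

/-- the bounds with one parameter `s` for every `k` -/
theorem gen_fam_bound (k : ℕ) (hk : 0 < k) : ∃ s : ℕ, 1 ≤ s ∧ ∃ C : ℕ, ∀ n w : ℕ,
    (∀ i : ℕ, (gen s n w i).natDegree ^ k ≤
      (C * ((n + 1) * (w + 1)) ^ C) ^ k * (w + 1) ^ Nat.log 2 n) ∧
    ∀ d : ℕ, meas (fam s n w d) ^ k ≤
      (C * (d + 1) * ((n + 1) * (w + 1)) ^ C) ^ k * (w + 1) ^ Nat.log 2 n := by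
  obtain ⟨s, hs, C, hC⟩ := fam_bound k hk
  refine ⟨s, hs, C, fun n w => ⟨fun i => ?_, fun d =>
    (Nat.pow_le_pow_left (meas_fam_le s n w d) k).trans (hC n w d)⟩⟩
  have h1 := hC n w 0
  rw [zero_add, mul_one] at h1
  refine le_trans (Nat.pow_le_pow_left ?_ k) h1
  refine (natDegree_gen s n w i).trans ?_
  unfold gb
  set E : ℕ := ed s (max w 1) ^ rounds (s * 2 ^ s) n with hE
  have h2 : E ≤ E ^ 2 := Nat.le_self_pow (by norm_num) E
  nlinarith [Nat.zero_le (qex s (max w 1) * E ^ 2), Nat.zero_le (n * 0 * E ^ 2), Nat.zero_le (E ^ 2)]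

end Pool.Agent.KNR
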