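import Pool.Agent.KNR.Bnd

/-!
One explicit family of points for all `n, w, d`: the parameter `s` is chosen among
`1, …, slow n + 1` by the size bound `gb`.
-/

set_option autoImplicit false

namespace Pool.Agent.KNR

/-- number of points plus the largest bit length of a coordinate -/
def meas (l : List (List ℤ)) : ℕ :=
  l.length + (l.flatten.map fun x => Nat.size x.natAbs).foldr max 0

/-- four times iterated logarithm -/
def slow (n : ℕ) : ℕ := Nat.log 2 (Nat.log 2 (Nat.log 2 (Nat.log 2 n)))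

/-- the parameter in `1, …, t + 1` with the least bound `gb` -/
def sel (n w d : ℕ) : ℕ → ℕ
  | 0 => 1
  | t + 1 => if gb (t + 2) n w d < gb (sel n w d t) n w d then t + 2 else sel n w d t

/-- the hitting set -/
def hit (n w d : ℕ) : List (List ℤ) := fam (sel n w d (slow n)) n w d

theorem one_le_sel (n w d t : ℕ) : 1 ≤ sel n w d t := by
  induction t with
  | zero => exact le_rfl
  | succ t ih =>
    rw [sel]
    split_ifs
    · omega
    · exact ih

theorem sel_le (n w d t : ℕ) : sel n w d t ≤ t + 1 := by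
  induction t with
  | zero => exact le_rfl
  | succ t ih =>
    rw [sel]
    split_ifs
    · omega
    · omega

theorem gb_sel_le (n w d t : ℕ) : ∀ s, 1 ≤ s → s ≤ t + 1 → gb (sel n w d t) n w d ≤ gb s n w d := by
  induction t with
  | zero =>
    intro s h1 h2
    have : s = 1 := by omega
    rw [this, sel]
  | succ t ih =>
    intro s h1 h2
    rw [sel]
    by_cases hs : s ≤ t + 1
    · have h3 := ih s h1 hs
      split_ifs with h
      · omega
      · exact h3
    · have h3 : s = t + 2 := by omega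
      rw [h3]
      split_ifs with h
      · exact le_rfl
      · omega

theorem foldr_max_le (l : List ℕ) (G : ℕ) (h : ∀ x ∈ l, x ≤ G) : l.foldr max 0 ≤ G := by
  induction l with
  | nil => exact Nat.zero_le _
  | cons a l ih =>
    rw [List.foldr_cons]
    exact max_le (h a (by simp)) (ih fun x hx => h x (by simp [hx]))

theorem meas_fam_le (s n w d : ℕ) : meas (fam s n w d) ≤ 2 * gb s n w d := by
  have h1 := length_le_gb s n w d
  have h2 : ((fam s n w d).flatten.map fun x => Nat.size x.natAbs).foldr max 0 ≤ gb s n w d := by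
    apply foldr_max_le
    intro y hy
    rw [List.mem_map] at hy
    obtain ⟨x, hx, rfl⟩ := hy
    rw [List.mem_flatten] at hx
    obtain ⟨p, hp, hx⟩ := hx
    exact size_le_gb s n w d p hp x hx
  unfold meas
  omega

theorem hit_eq (n w d : ℕ) : ∃ s, 1 ≤ s ∧ s ≤ slow n + 1 ∧ hit n w d = fam s n w d :=
  ⟨sel n w d (slow n), one_le_sel _ _ _ _, sel_le _ _ _ _, rfl⟩

theorem le_slow {s n : ℕ} (h : 2 ^ (2 ^ (2 ^ (2 ^ s))) ≤ n) : s ≤ slow n := by
  have key : ∀ a b : ℕ, 2 ^ a ≤ b → a ≤ Nat.log 2 b := by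
    intro a b hab
    have h1 := Nat.log_mono_right (b := 2) hab
    rwa [Nat.log_pow (by norm_num)] at h1
  exact key _ _ (key _ _ (key _ _ (key _ _ h)))

theorem fam_bound' (k : ℕ) (hk : 0 < k) : ∃ s : ℕ, 1 ≤ s ∧ ∃ C : ℕ, ∀ n w d : ℕ,
    meas (fam s n w d) ^ k ≤
      (C * (d + 1) * ((n + 1) * (w + 1)) ^ C) ^ k * (w + 1) ^ Nat.log 2 n := by
  obtain ⟨s, hs, C, hC⟩ := fam_bound k hk
  exact ⟨s, hs, C, fun n w d => (Nat.pow_le_pow_left (meas_fam_le s n w d) k).trans (hC n w d)⟩

theorem hit_bound (k : ℕ) (hk : 0 < k) : ∃ C : ℕ, ∀ n w d : ℕ,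
    meas (hit n w d) ^ k ≤ (C * (d + 1) * ((n + 1) * (w + 1)) ^ C) ^ k * (w + 1) ^ Nat.log 2 n := by
  obtain ⟨s, hs, C, hC⟩ := fam_bound k hk
  obtain ⟨C', hC'⟩ := fam_small 1 (2 ^ (2 ^ (2 ^ (2 ^ s)))) le_rfl
  refine ⟨C + C', fun n w d => ?_⟩
  have hB1 : 1 ≤ (n + 1) * (w + 1) := Nat.mul_pos (by omega) (by omega)
  have h0 : meas (hit n w d) ≤ 2 * gb (sel n w d (slow n)) n w d := meas_fam_le _ n w d
  rcases Nat.lt_or_ge n (2 ^ (2 ^ (2 ^ (2 ^ s)))) with h | h
  · have h1 := gb_sel_le n w d (slow n) 1 le_rfl (by omega)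
    have h2 := hC' n w d h.le
    have h3 : C' * (d + 1) * (w + 1) ^ C' ≤ (C + C') * (d + 1) * ((n + 1) * (w + 1)) ^ (C + C') := by
      refine Nat.mul_le_mul (Nat.mul_le_mul_right _ (by omega)) ?_
      calc (w + 1) ^ C' ≤ ((n + 1) * (w + 1)) ^ C' :=
            Nat.pow_le_pow_left (Nat.le_mul_of_pos_left _ (by omega)) _
        _ ≤ ((n + 1) * (w + 1)) ^ (C + C') := Nat.pow_le_pow_right hB1 (by omega)
    have h4 : meas (hit n w d) ≤ (C + C') * (d + 1) * ((n + 1) * (w + 1)) ^ (C + C') := by omega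
    calc meas (hit n w d) ^ k ≤ ((C + C') * (d + 1) * ((n + 1) * (w + 1)) ^ (C + C')) ^ k :=
          Nat.pow_le_pow_left h4 k
      _ ≤ _ := Nat.le_mul_of_pos_right _ (Nat.pow_pos (by omega))
  · have h1 := gb_sel_le n w d (slow n) s hs (by have := le_slow h; omega)
    have h2 : meas (hit n w d) ≤ 2 * gb s n w d := by omega
    calc meas (hit n w d) ^ k ≤ (2 * gb s n w d) ^ k := Nat.pow_le_pow_left h2 k
      _ ≤ _ := hC n w d
      _ ≤ _ := by
        refine Nat.mul_le_mul_right _ (Nat.pow_le_pow_left ?_ k)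
        refine Nat.mul_le_mul (Nat.mul_le_mul_right _ (by omega)) ?_
        exact Nat.pow_le_pow_right hB1 (by omega)

end Pool.Agent.KNR
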