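import Pool.Agent.KNR.Defs

/-!
Iteration: a curve which hits all polynomials in `N` variables with cuts `≤ w` gives curves which hit all
polynomials in `N ^ R` variables with cuts `≤ w`.
-/

set_option autoImplicit false

namespace Pool.Agent.KNR

open MvPolynomial

/-- `x` before `p`, `y` from `p` on -/
def gl (p : ℕ) (x y : ℕ → ℂ) : ℕ → ℂ := fun i => if i < p then x i else y i

/-- cuts for polynomials in variables indexed by `ℕ` -/
def CutN (w : ℕ) (F : MvPolynomial ℕ ℂ) : Prop :=
  ∀ p : ℕ, ∃ A B : Fin w → (ℕ → ℂ) → ℂ, ∀ x y : ℕ → ℂ, eval (gl p x y) F = ∑ j, A j x * B j y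

/-- value of the curve `c` at `z` -/
noncomputable def ev (c : Polynomial ℤ) (z : ℂ) : ℂ := (c.map (Int.castRingHom ℂ)).eval z

theorem ev_comp (c e : Polynomial ℤ) (z : ℂ) : ev (c.comp e) z = ev c (ev e z) := by
  unfold ev
  rw [Polynomial.map_comp, Polynomial.eval_comp]

theorem exists_ev_ne {N w : ℕ} {c : ℕ → Polynomial ℤ} (hc : Hits N w c)
    (f : MvPolynomial (Fin N) ℂ) (hf : f ≠ 0) (hw : Cut w f) :
    ∃ z : ℂ, eval (fun i : Fin N => ev (c i) z) f ≠ 0 := by
  have h := hc f hf hw
  by_contra hcon
  push Not at hcon
  apply h
  apply Polynomial.funext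
  intro z
  rw [Polynomial.eval_zero, ← hcon z]
  have h1 : ∀ q : MvPolynomial (Fin N) ℂ,
      (aeval (fun i : Fin N => (c (i : ℕ)).map (Int.castRingHom ℂ)) q).eval z =
        eval (fun i : Fin N => ev (c i) z) q := by
    intro q
    induction q using MvPolynomial.induction_on with
    | C a => simp
    | add p q hp hq => rw [map_add, Polynomial.eval_add, hp, hq, map_add]
    | mul_X p i hp => rw [map_mul, Polynomial.eval_mul, hp, aeval_X, map_mul, eval_X]; rfl
  exact h1 f

/-- the block step, at function level -/
theorem block_step {N w : ℕ} {c : ℕ → Polynomial ℤ} (hN : 0 < N) (hc : Hits N w c)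
    (F : MvPolynomial ℕ ℂ) (hw : CutN w F) (hF : F ≠ 0) (m : ℕ) :
    ∃ u x : ℕ → ℂ,
      eval (fun i => if i < N * m then ev (c (i % N)) (u (i / N)) else x i) F ≠ 0 := by
  induction m with
  | zero =>
    by_contra hcon
    push Not at hcon
    apply hF
    apply MvPolynomial.funext
    intro x
    rw [map_zero, ← hcon 0 x]
    congr 1
  | succ m ih =>
    obtain ⟨u, x, hux⟩ := ih
    -- the polynomial in the block
    let σ : ℕ → MvPolynomial (Fin N) ℂ := fun i =>
      if i < N * m then C (ev (c (i % N)) (u (i / N)))
      else if h : i - N * m < N then X ⟨i - N * m, h⟩ else C (x i)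
    let G : MvPolynomial (Fin N) ℂ := aeval σ F
    have hev : ∀ z : Fin N → ℂ, eval z G = eval (fun i => if i < N * m then ev (c (i % N)) (u (i / N))
        else if h : i - N * m < N then z ⟨i - N * m, h⟩ else x i) F := by
      intro z
      have h1 : ∀ q : MvPolynomial ℕ ℂ, eval z (aeval σ q) = eval (fun i => eval z (σ i)) q := by
        intro q
        induction q using MvPolynomial.induction_on with
        | C a => simp
        | add p q hp hq => rw [map_add, map_add, hp, hq, map_add]
        | mul_X p i hp => rw [map_mul, map_mul, hp, aeval_X, map_mul, eval_X]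
      rw [show eval z G = eval z (aeval σ F) from rfl, h1]
      congr 1
      congr 1
      funext i
      by_cases h2 : i < N * m
      · simp [σ, h2]
      · by_cases h3 : i - N * m < N
        · simp [σ, h2, h3]
        · simp [σ, h2, h3]
    have hG : G ≠ 0 := by
      intro h0
      apply hux
      have h1 := hev (fun j => x (N * m + j))
      rw [h0, map_zero] at h1
      rw [h1]
      congr 1
      congr 1
      funext i
      by_cases h2 : i < N * m
      · simp [h2]
      · by_cases h3 : i - N * m < N
        · simp only [h2, h3, if_false, dif_pos]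
          congr 1
          omega
        · simp [h2, h3]
    have hGw : Cut w G := by
      intro p
      obtain ⟨A, B, hAB⟩ := hw (N * m + p)
      let L : (Fin N → ℂ) → ℕ → ℂ := fun z i => if i < N * m then ev (c (i % N)) (u (i / N))
        else if h : i - N * m < N then z ⟨i - N * m, h⟩ else x i
      refine ⟨fun j z => A j (L z), fun j z => B j (L z), fun a b => ?_⟩
      rw [hev, ← hAB]
      congr 1
      congr 1
      funext i
      unfold gl
      by_cases h2 : i < N * m
      · have h4 : i < N * m + p := by omega
        simp [L, h2, h4]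
      · by_cases h3 : i - N * m < N
        · by_cases h4 : i < N * m + p
          · have h5 : i - N * m < p := by omega
            simp [L, h2, h3, h4, h5]
          · have h5 : ¬ (i - N * m < p) := by omega
            simp [L, h2, h3, h4, h5]
        · by_cases h4 : i < N * m + p
          · simp [L, h2, h3, h4]
          · simp [L, h2, h3, h4]
    obtain ⟨z, hz⟩ := exists_ev_ne hc G hG hGw
    refine ⟨Function.update u m z, x, ?_⟩
    rw [hev] at hz
    convert hz using 3
    funext i
    by_cases h2 : i < N * m
    · have h3 : i < N * (m + 1) := by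
        rw [mul_add]; omega
      have h4 : i / N ≠ m := by
        have : i / N < m := Nat.div_lt_of_lt_mul h2
        omega
      simp [h2, h3, h4]
    · by_cases h3 : i - N * m < N
      · have h4 : i < N * (m + 1) := by
          rw [mul_add]; omega
        have h5 : i / N = m := by
          apply Nat.div_eq_of_lt_le
          · rw [mul_comm]; omega
          · rw [mul_comm]; exact h4
        have h6 : i % N = i - N * m := by
          have := Nat.div_add_mod i N
          rw [h5] at this
          omega
        simp [h2, h3, h4, h5, h6]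
      · have h4 : ¬ i < N * (m + 1) := by
          rw [mul_add]; omega
        simp [h2, h3, h4]

theorem iterN {N w : ℕ} {c : ℕ → Polynomial ℤ} (hN : 0 < N) (hc : Hits N w c) (R : ℕ) :
    ∀ F : MvPolynomial ℕ ℂ, (∀ i ∈ F.vars, i < N ^ R) → F ≠ 0 → CutN w F →
      ∃ z : ℂ, eval (fun i => ev (itc N c R i) z) F ≠ 0 := by
  induction R with
  | zero =>
    intro F hv hF _
    by_contra hcon
    push Not at hcon
    apply hF
    apply MvPolynomial.funext
    intro x
    rw [map_zero, ← hcon (x 0)]
    refine eval₂Hom_congr' rfl (fun i hi _ => ?_) rfl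
    have h1 := hv i hi
    rw [pow_zero, Nat.lt_one_iff] at h1
    subst h1
    simp [ev, itc]
  | succ R ih =>
    intro F hv hF hw
    obtain ⟨u, x, hux⟩ := block_step hN hc F hw hF (N ^ R)
    let σ : ℕ → MvPolynomial ℕ ℂ := fun i =>
      Polynomial.aeval (X (i / N)) ((c (i % N)).map (Int.castRingHom ℂ))
    let F' : MvPolynomial ℕ ℂ := aeval σ F
    have hσ : ∀ (z : ℕ → ℂ) (i : ℕ), eval z (σ i) = ev (c (i % N)) (z (i / N)) := by
      intro z i
      have h1 : ∀ q : Polynomial ℂ, eval z (Polynomial.aeval (X (i / N)) q) = q.eval (z (i / N)) := by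
        intro q
        induction q using Polynomial.induction_on' with
        | add p q hp hq => rw [map_add, map_add, hp, hq, Polynomial.eval_add]
        | monomial n a =>
          rw [Polynomial.aeval_monomial, map_mul, map_pow, eval_X, Polynomial.eval_monomial]
          simp
      exact h1 _
    have hev : ∀ z : ℕ → ℂ, eval z F' = eval (fun i => ev (c (i % N)) (z (i / N))) F := by
      intro z
      have h1 : ∀ q : MvPolynomial ℕ ℂ, eval z (aeval σ q) = eval (fun i => eval z (σ i)) q := by
        intro q
        induction q using MvPolynomial.induction_on with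
        | C a => simp
        | add p q hp hq => rw [map_add, map_add, hp, hq, map_add]
        | mul_X p i hp => rw [map_mul, map_mul, hp, aeval_X, map_mul, eval_X]
      rw [show eval z F' = eval z (aeval σ F) from rfl, h1]
      congr 1
      congr 1
      funext i
      exact hσ z i
    have hF' : F' ≠ 0 := by
      intro h0
      apply hux
      have h1 := hev u
      rw [h0, map_zero] at h1
      rw [h1]
      refine eval₂Hom_congr' rfl (fun i hi _ => ?_) rfl
      have h2 : i < N * N ^ R := by
        have := hv i hi
        rwa [pow_succ, mul_comm] at this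
      simp [h2]
    have hw' : CutN w F' := by
      intro p
      obtain ⟨A, B, hAB⟩ := hw (N * p)
      let L : (ℕ → ℂ) → ℕ → ℂ := fun z i => ev (c (i % N)) (z (i / N))
      refine ⟨fun j z => A j (L z), fun j z => B j (L z), fun a b => ?_⟩
      rw [hev, ← hAB]
      congr 1
      congr 1
      funext i
      unfold gl
      by_cases h2 : i < N * p
      · have h3 : i / N < p := Nat.div_lt_of_lt_mul h2
        simp [L, h2, h3]
      · have h3 : ¬ i / N < p := by
          intro h4
          apply h2
          exact (Nat.div_lt_iff_lt_mul hN).1 h4 |>.trans_eq (mul_comm _ _)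
        simp [L, h2, h3]
    have hv' : ∀ i ∈ F'.vars, i < N ^ R := by
      intro i hi
      have h1 := vars_bind₁ σ F hi
      rw [Finset.mem_biUnion] at h1
      obtain ⟨j, hj, hij⟩ := h1
      have h2 : (σ j).vars ⊆ {j / N} := by
        intro k hk
        have h3 : ∀ q : Polynomial ℂ, (Polynomial.aeval (X (R := ℂ) (j / N)) q).vars ⊆ {j / N} := by
          intro q
          rw [Polynomial.aeval_eq_sum_range]
          refine (vars_sum_subset _ _).trans ?_
          intro l hl
          rw [Finset.mem_biUnion] at hl
          obtain ⟨e, _, he⟩ := hl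
          rw [smul_eq_C_mul] at he
          have h4 := vars_mul _ _ he
          rw [vars_C, Finset.empty_union] at h4
          have h5 := vars_pow _ _ h4
          rwa [vars_X] at h5
        exact h3 _ hk
      have h3 := h2 hij
      rw [Finset.mem_singleton] at h3
      rw [h3]
      have h4 := hv j hj
      rw [pow_succ] at h4
      exact Nat.div_lt_of_lt_mul (by rwa [mul_comm] at h4)
    obtain ⟨z, hz⟩ := ih F' hv' hF' hw'
    refine ⟨z, ?_⟩
    rw [hev] at hz
    convert hz using 3
    funext i
    rw [itc, ev_comp]

theorem iter {N w : ℕ} {c : ℕ → Polynomial ℤ} (hN : 0 < N) (hc : Hits N w c) (R n : ℕ)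
    (hn : n ≤ N ^ R) (f : MvPolynomial (Fin n) ℂ) (hf : f ≠ 0) (hw : Cut w f) :
    ∃ z : ℂ, eval (fun i : Fin n => ev (itc N c R i) z) f ≠ 0 := by
  classical
  let F : MvPolynomial ℕ ℂ := rename (fun i : Fin n => (i : ℕ)) f
  have hinj : Function.Injective (fun i : Fin n => (i : ℕ)) := Fin.val_injective
  have hev : ∀ z : ℕ → ℂ, eval z F = eval (fun i : Fin n => z i) f := by
    intro z
    exact eval_rename _ _ _
  have hF : F ≠ 0 := by
    intro h0
    apply hf
    apply rename_injective _ hinj
    rw [map_zero]
    exact h0
  have hv : ∀ i ∈ F.vars, i < N ^ R := by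
    intro i hi
    have h1 := vars_rename (fun i : Fin n => (i : ℕ)) f hi
    rw [Finset.mem_image] at h1
    obtain ⟨j, _, rfl⟩ := h1
    exact j.isLt.trans_le hn
  have hw' : CutN w F := by
    intro p
    obtain ⟨A, B, hAB⟩ := hw p
    refine ⟨fun j z => A j (fun i => z i), fun j z => B j (fun i => z i), fun a b => ?_⟩
    rw [hev, ← hAB]
    rfl
  obtain ⟨z, hz⟩ := iterN hN hc R F hv hF hw'
  exact ⟨z, by rwa [hev] at hz⟩

end Pool.Agent.KNR
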