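import Pool.Agent.KNR.Dvd

/-!
Noncommutative polynomials with Nisan matrices of rank at most `w` (noncommutative algebraic branching
programs of width `w`): the homogeneous component of degree `m` as a commutative polynomial in `m` variables.
-/

set_option autoImplicit false

namespace Pool.Agent.KNR

open MvPolynomial

universe u

/-- Nisan's condition: the coefficient matrices (words of length `p`) x (words of length `q`) have
rank at most `w`. -/
def NRank {K : Type*} [Field K] {n : ℕ} (w : ℕ) (f : List (Fin n) →₀ K) : Prop :=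
  ∀ p q : ℕ, ∃ g h : Fin w → List (Fin n) → K, ∀ a b : List (Fin n),
    a.length = p → b.length = q → f (a ++ b) = ∑ j, g j a * h j b

/-- exponents of a word -/
noncomputable def ncExp {n m : ℕ} (a : Fin m → Fin n) : Fin m →₀ ℕ :=
  Finsupp.equivFunOnFinite.symm fun l => (a l : ℕ)

theorem ncExp_inj {n m : ℕ} : Function.Injective (ncExp (n := n) (m := m)) := by
  intro a b h
  funext l
  have h1 := DFunLike.congr_fun h l
  simp only [ncExp, Finsupp.equivFunOnFinite_symm_apply_apply] at h1
  exact Fin.ext h1

/-- the commutative polynomial of the homogeneous component of degree `m` -/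
noncomputable def ncPol {K : Type*} [Field K] {n : ℕ} (f : List (Fin n) →₀ K)
    (m : ℕ) : MvPolynomial (Fin m) K :=
  ∑ a : Fin m → Fin n, monomial (ncExp a) (f (List.ofFn a))

theorem coeff_ncPol {K : Type*} [Field K] {n : ℕ} (f : List (Fin n) →₀ K)
    (m : ℕ) (a : Fin m → Fin n) :
    coeff (ncExp a) (ncPol f m) = f (List.ofFn a) := by
  classical
  rw [ncPol, coeff_sum, Finset.sum_eq_single a]
  · rw [coeff_monomial, if_pos rfl]
  · intro b _ hb
    rw [coeff_monomial, if_neg]
    intro h
    exact hb (ncExp_inj h)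
  · intro h
    exact absurd (Finset.mem_univ a) h

theorem ncPol_ne {K : Type*} [Field K] {n : ℕ} (f : List (Fin n) →₀ K)
    (a : List (Fin n)) (ha : f a ≠ 0) : ncPol f a.length ≠ 0 := by
  intro h0
  apply ha
  have h1 := coeff_ncPol f a.length (fun l => a.get l)
  rw [h0, coeff_zero] at h1
  rw [h1]
  congr 1
  exact (List.ofFn_get _).symm

theorem degreeOf_ncPol {K : Type*} [Field K] {n : ℕ} (f : List (Fin n) →₀ K)
    (m : ℕ) (l : Fin m) : (ncPol f m).degreeOf l ≤ n := by
  classical
  rw [ncPol]
  refine (degreeOf_sum_le l _ _).trans ?_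
  rw [Finset.sup_le_iff]
  intro a _
  by_cases hc : f (List.ofFn a) = 0
  · rw [hc, monomial_zero, degreeOf_zero]
    exact Nat.zero_le _
  · rw [degreeOf_monomial_eq _ _ hc]
    simp only [ncExp, Finsupp.equivFunOnFinite_symm_apply_apply]
    exact (a l).isLt.le

theorem pcut_ncPol {K : Type*} [Field K] {n w : ℕ} (f : List (Fin n) →₀ K)
    (hf : NRank w f) (m : ℕ) : PCut w (ncPol f m) := by
  classical
  intro p
  set q : ℕ := min p m with hq
  obtain ⟨g, h, hgh⟩ := hf q (m - q)
  -- the two halves
  let P : Fin m → Prop := fun l => (l : ℕ) < q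
  let e := Equiv.piEquivPiSubtypeProd P (fun _ => Fin n)
  -- n might be zero: use the words of the halves directly
  let wl : ({l : Fin m // P l} → Fin n) → List (Fin n) := fun a =>
    List.ofFn (fun l : Fin q => a ⟨⟨(l : ℕ), by have := l.isLt; omega⟩, l.isLt⟩)
  let wr : ({l : Fin m // ¬ P l} → Fin n) → List (Fin n) := fun a =>
    List.ofFn (fun l : Fin (m - q) => a ⟨⟨q + (l : ℕ), by have := l.isLt; omega⟩, by
      show ¬ (q + (l : ℕ) < q); omega⟩)
  have hsplit : ∀ a : Fin m → Fin n, List.ofFn a = wl (e a).1 ++ wr (e a).2 := by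
    intro a
    have hm : q + (m - q) = m := by omega
    apply List.ext_getElem
    · simp [wl, wr, hm]
    · intro i h1 h2
      simp only [List.length_ofFn] at h1
      rw [List.getElem_ofFn]
      by_cases hi : i < q
      · rw [List.getElem_append_left (by simpa [wl] using hi)]
        simp [wl, e, Equiv.piEquivPiSubtypeProd]
      · rw [List.getElem_append_right (by simpa [wl] using hi)]
        simp only [wl, wr, e, Equiv.piEquivPiSubtypeProd, List.length_ofFn, List.getElem_ofFn]
        simp only [Equiv.coe_fn_mk]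
        congr 1
        apply Fin.ext
        simp only
        omega
  refine ⟨fun j => ∑ a : {l : Fin m // P l} → Fin n, C (g j (wl a)) *
      ∏ l : {l : Fin m // P l}, X (l : Fin m) ^ ((a l : ℕ)),
    fun j => ∑ a : {l : Fin m // ¬ P l} → Fin n, C (h j (wr a)) *
      ∏ l : {l : Fin m // ¬ P l}, X (l : Fin m) ^ ((a l : ℕ)), ?_, ?_, ?_⟩
  · intro j i hi
    have h1 := vars_sum_subset _ _ hi
    rw [Finset.mem_biUnion] at h1
    obtain ⟨a, _, ha⟩ := h1
    have h2 := vars_mul _ _ ha
    rw [vars_C, Finset.empty_union] at h2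
    have h3 := vars_prod _ h2
    rw [Finset.mem_biUnion] at h3
    obtain ⟨l, _, hl⟩ := h3
    have h4 := vars_pow _ _ hl
    rw [vars_X, Finset.mem_singleton] at h4
    subst h4
    have := l.2
    simp only [P] at this
    omega
  · intro j i hi
    have h1 := vars_sum_subset _ _ hi
    rw [Finset.mem_biUnion] at h1
    obtain ⟨a, _, ha⟩ := h1
    have h2 := vars_mul _ _ ha
    rw [vars_C, Finset.empty_union] at h2
    have h3 := vars_prod _ h2
    rw [Finset.mem_biUnion] at h3
    obtain ⟨l, _, hl⟩ := h3
    have h4 := vars_pow _ _ hl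
    rw [vars_X, Finset.mem_singleton] at h4
    subst h4
    have := l.2
    simp only [P] at this
    have h5 := (l : Fin m).isLt
    omega
  · rw [ncPol]
    have hterm : ∀ a : Fin m → Fin n, monomial (ncExp a) (f (List.ofFn a)) =
        ∑ j, (C (g j (wl (e a).1)) *
          ∏ l : {l : Fin m // P l}, X (l : Fin m) ^ (((e a).1 l : ℕ))) *
          (C (h j (wr (e a).2)) *
          ∏ l : {l : Fin m // ¬ P l}, X (l : Fin m) ^ (((e a).2 l : ℕ))) := by
      intro a
      rw [hsplit a]
      have h1 : f (wl (e a).1 ++ wr (e a).2) =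
          ∑ j, g j (wl (e a).1) * h j (wr (e a).2) := by
        apply hgh
        · simp [wl]
        · simp [wr]
      rw [h1]
      have h2 : (monomial (ncExp a)) (1 : K) = (∏ l : {l : Fin m // P l}, X (l : Fin m) ^ (((e a).1 l : ℕ))) *
          ∏ l : {l : Fin m // ¬ P l}, X (l : Fin m) ^ (((e a).2 l : ℕ)) := by
        have h3 : (monomial (ncExp a)) (1 : K) = ∏ l : Fin m, (X l : MvPolynomial (Fin m) K) ^ ((a l : ℕ)) := by
          rw [monomial_eq, C_1, one_mul, Finsupp.prod_fintype]
          · rfl
          · intro i; exact pow_zero _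
        rw [h3, ← Fintype.prod_subtype_mul_prod_subtype P]
        rfl
      have h4 : ∀ x : K, (monomial (ncExp a)) x = C x * (monomial (ncExp a)) (1 : K) := by
        intro x
        rw [C_mul_monomial, mul_one]
      rw [h4, h2, map_sum, Finset.sum_mul]
      refine Finset.sum_congr rfl fun j _ => ?_
      rw [map_mul]
      ring
    rw [Finset.sum_congr rfl fun a _ => hterm a, Finset.sum_comm]
    refine Finset.sum_congr rfl fun j _ => ?_
    rw [Finset.sum_mul_sum]
    rw [← Finset.sum_product' (f := fun a b => (C (g j (wl a)) *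
          ∏ l : {l : Fin m // P l}, X (l : Fin m) ^ ((a l : ℕ))) *
          (C (h j (wr b)) *
          ∏ l : {l : Fin m // ¬ P l}, X (l : Fin m) ^ ((b l : ℕ))))]
    refine Fintype.sum_equiv e _ _ fun a => rfl

end Pool.Agent.KNR
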