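import Mathlib

/-!
Polynomially bounded functions of the width.
-/

set_option autoImplicit false

namespace Pool.Agent.KNR

/-- polynomially bounded on `w ≥ 1` -/
def PB (f : ℕ → ℕ) : Prop := ∃ A : ℕ, ∀ w, 1 ≤ w → f w ≤ A * w ^ A

theorem PB.mono {f g : ℕ → ℕ} (hg : PB g) (h : ∀ w, 1 ≤ w → f w ≤ g w) : PB f := by
  obtain ⟨A, hA⟩ := hg
  exact ⟨A, fun w hw => (h w hw).trans (hA w hw)⟩

theorem PB.const (c : ℕ) : PB fun _ => c := by
  refine ⟨c, fun w hw => ?_⟩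
  exact Nat.le_mul_of_pos_right _ (Nat.pow_pos hw)

theorem PB.idw : PB fun w => w := ⟨1, fun w _ => by simp⟩

theorem PB.of_le {f : ℕ → ℕ} {A c : ℕ} (h : ∀ w, 1 ≤ w → f w ≤ A * w ^ c) : PB f := by
  refine ⟨A + c, fun w hw => (h w hw).trans ?_⟩
  exact Nat.mul_le_mul (by omega) (Nat.pow_le_pow_right hw (by omega))

theorem PB.add {f g : ℕ → ℕ} (hf : PB f) (hg : PB g) : PB fun w => f w + g w := by
  obtain ⟨A, hA⟩ := hf
  obtain ⟨B, hB⟩ := hg
  refine ⟨A + B, fun w hw => ?_⟩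
  have h1 : f w ≤ A * w ^ (A + B) := (hA w hw).trans
    (Nat.mul_le_mul_left _ (Nat.pow_le_pow_right hw (by omega)))
  have h2 : g w ≤ B * w ^ (A + B) := (hB w hw).trans
    (Nat.mul_le_mul_left _ (Nat.pow_le_pow_right hw (by omega)))
  show f w + g w ≤ _
  rw [add_mul]
  omega

theorem PB.mul {f g : ℕ → ℕ} (hf : PB f) (hg : PB g) : PB fun w => f w * g w := by
  obtain ⟨A, hA⟩ := hf
  obtain ⟨B, hB⟩ := hg
  refine PB.of_le (A := A * B) (c := A + B) fun w hw => ?_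
  calc f w * g w ≤ A * w ^ A * (B * w ^ B) := Nat.mul_le_mul (hA w hw) (hB w hw)
    _ = A * B * w ^ (A + B) := by rw [pow_add]; ring

theorem PB.pow {f : ℕ → ℕ} (hf : PB f) (k : ℕ) : PB fun w => f w ^ k := by
  induction k with
  | zero => simpa using PB.const 1
  | succ k ih => simpa [pow_succ] using ih.mul hf

end Pool.Agent.KNR
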