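import Pool.Agent.KNR.Tr

/-!
Read-once oblivious algebraic branching programs in the order `x_0, x_1, …, x_(n-1)`.
-/

set_option autoImplicit false

namespace Pool.Agent.KNR

open MvPolynomial

/-- `f` is computed by a read-once oblivious algebraic branching program of width `w` in the order
`x_0, x_1, …, x_(n-1)`: `f = u * M_0(x_0) * M_1(x_1) * ⋯ * M_(n-1)(x_(n-1)) * v` with `w × w` matrices
`M_i` of polynomials in one variable, a row `u` and a column `v` of constants. -/
def Roabp {K : Type*} [Field K] {n : ℕ} (w : ℕ) (f : MvPolynomial (Fin n) K) : Prop :=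
  ∃ (M : Fin n → Matrix (Fin w) (Fin w) (Polynomial K)) (u v : Fin w → K),
    f = (fun a => C (u a)) ⬝ᵥ
      (List.ofFn fun i : Fin n => (M i).map fun q => Polynomial.aeval (X i) q).prod.mulVec
        (fun b => C (v b))

private theorem prod_mem {R : Type*} [CommRing R] {S : Subring R} {w : ℕ}
    (L : List (Matrix (Fin w) (Fin w) R)) (hL : ∀ A ∈ L, ∀ a b, A a b ∈ S) :
    ∀ a b, L.prod a b ∈ S := by
  induction L with
  | nil =>
    intro a b
    rw [List.prod_nil, Matrix.one_apply]
    split
    · exact S.one_mem
    · exact S.zero_mem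
  | cons A L ih =>
    intro a b
    rw [List.prod_cons, Matrix.mul_apply]
    refine S.sum_mem fun c _ => S.mul_mem (hL A (by simp) a c) (ih (fun B hB => hL B (by simp [hB])) c b)

theorem Roabp.pcut {K : Type*} [Field K] {n w : ℕ} {f : MvPolynomial (Fin n) K} (hf : Roabp w f) :
    PCut w f := by
  classical
  obtain ⟨M, u, v, hf⟩ := hf
  intro p
  set L : List (Matrix (Fin w) (Fin w) (MvPolynomial (Fin n) K)) :=
    List.ofFn fun i : Fin n => (M i).map fun q => Polynomial.aeval (X i) q with hL
  -- entries of the `i`-th matrix are polynomials in `x_i`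
  have hent : ∀ (s : Set (Fin n)) (i : Fin n), i ∈ s → ∀ a b,
      (M i).map (fun q => Polynomial.aeval (X i : MvPolynomial (Fin n) K) q) a b ∈
        (supported K s).toSubring := by
    intro s i hi a b
    rw [Matrix.map_apply, Subalgebra.mem_toSubring]
    have hX : (X i : MvPolynomial (Fin n) K) ∈ supported K s := X_mem_supported.2 hi
    rw [Polynomial.aeval_eq_sum_range]
    exact (supported K s).sum_mem fun k _ =>
      (supported K s).smul_mem ((supported K s).pow_mem hX k) _
  have hlen : L.length = n := by rw [hL, List.length_ofFn]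
  have hget : ∀ (i : ℕ) (hi : i < L.length), L[i] =
      (M ⟨i, hlen ▸ hi⟩).map fun q => Polynomial.aeval (X ⟨i, hlen ▸ hi⟩ : MvPolynomial (Fin n) K) q := by
    intro i hi
    simp only [hL, List.getElem_ofFn]
  have hA : ∀ a b, (L.take p).prod a b ∈ (supported K {i : Fin n | (i : ℕ) < p}).toSubring := by
    refine prod_mem _ fun A hA => ?_
    obtain ⟨i, hi, rfl⟩ := List.mem_iff_getElem.1 hA
    rw [List.length_take] at hi
    rw [List.getElem_take, hget i (lt_of_lt_of_le hi (min_le_right _ _))]
    exact hent _ _ (lt_of_lt_of_le hi (min_le_left _ _))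
  have hB : ∀ a b, (L.drop p).prod a b ∈ (supported K {i : Fin n | p ≤ (i : ℕ)}).toSubring := by
    refine prod_mem _ fun A hA => ?_
    obtain ⟨i, hi, rfl⟩ := List.mem_iff_getElem.1 hA
    rw [List.length_drop] at hi
    rw [List.getElem_drop, hget (p + i) (by omega)]
    exact hent _ _ (Nat.le_add_right p i)
  refine ⟨fun j => Matrix.vecMul (fun a => C (u a)) (L.take p).prod j,
    fun j => (L.drop p).prod.mulVec (fun b => C (v b)) j, fun j i hi => ?_, fun j i hi => ?_, ?_⟩
  · have h1 : Matrix.vecMul (fun a => C (u a)) (L.take p).prod j ∈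
        supported K {i : Fin n | (i : ℕ) < p} := by
      rw [Matrix.vecMul, dotProduct]
      refine (supported K _).sum_mem fun a _ => (supported K _).mul_mem ?_ ?_
      · exact (supported K _).algebraMap_mem (u a)
      · exact (Subalgebra.mem_toSubring).1 (hA a j)
    exact mem_supported.1 h1 hi
  · have h1 : (L.drop p).prod.mulVec (fun b => C (v b)) j ∈
        supported K {i : Fin n | p ≤ (i : ℕ)} := by
      rw [Matrix.mulVec, dotProduct]
      refine (supported K _).sum_mem fun b _ => (supported K _).mul_mem ?_ ?_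
      · exact (Subalgebra.mem_toSubring).1 (hB j b)
      · exact (supported K _).algebraMap_mem (v b)
    exact mem_supported.1 h1 hi
  · have h1 : f = (fun a => C (u a)) ⬝ᵥ L.prod.mulVec (fun b => C (v b)) := hf
    rw [h1, ← List.prod_take_mul_prod_drop L p, ← Matrix.mulVec_mulVec, Matrix.dotProduct_mulVec]
    rfl

end Pool.Agent.KNR
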