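import Pool.Agent.KNR.Fam
import Pool.Agent.KNR.PB
import Pool.Agent.KNO.Abs
import Pool.Agent.KNO.Crd

/-!
Sizes of the families of points for a fixed parameter `s`.
-/

set_option autoImplicit false

namespace Pool.Agent.KNR

open Pool.Agent.KNO.Win

/-- one more than the degree of the window curve -/
def ed (s w : ℕ) : ℕ := dw (nn s) w (corep s w).length + 1

theorem two_pow_pos (s : ℕ) : 1 ≤ 2 ^ s := Nat.one_le_two_pow

theorem length_corep (s : ℕ) : ∃ A : ℕ, ∀ w, 1 ≤ w →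
    (corep s w).length ≤ A * w ^ (38 + 36 * 2 ^ s) := by
  refine ⟨(3 ^ nn s * (nn s + 1) ^ 2) * (3 ^ nn s * (nn s * (2 * (KNO.nuf (2 ^ s) (nn s) + 5)) ^
    (4 * 2 ^ s + 4) * 2 ^ 8 + 1) ^ 2) ^ KNO.nph (2 ^ s) (2 ^ s), fun w hw => ?_⟩
  have h1 := KNO.length_core_le (2 ^ s) (KNO.nuf (2 ^ s) (nn s)) w (KNO.nph (2 ^ s) (2 ^ s)) (nn s)
    (two_pow_pos s) hw
  have h2 : 2 + 18 * KNO.nph (2 ^ s) (2 ^ s) = 38 + 36 * 2 ^ s := by
    unfold KNO.nph
    ring
  rw [h2] at h1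
  exact h1

theorem ed_le (s : ℕ) : ∃ A : ℕ, ∀ w, 1 ≤ w → ed s w ≤ A * w ^ (40 + 36 * 2 ^ s) := by
  obtain ⟨A, hA⟩ := length_corep s
  refine ⟨3 * nn s ^ 2 * A + 1, fun w hw => ?_⟩
  have h1 := hA w hw
  set h : ℕ := (corep s w).length with hh
  set N : ℕ := nn s with hN
  have hNp : 1 ≤ N := nn_pos s
  set e : ℕ := 38 + 36 * 2 ^ s with he
  have he2 : 40 + 36 * 2 ^ s = e + 2 := by omega
  rw [ed, dw, he2]
  have hw2 : 1 ≤ w ^ 2 := Nat.pow_pos hw
  have hN2 : 1 ≤ N ^ 2 := Nat.pow_pos hNp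
  have a1 : N * w * h ≤ N ^ 2 * w ^ 2 * h := by
    refine Nat.mul_le_mul_right _ ?_
    exact Nat.mul_le_mul (Nat.le_self_pow (by norm_num) N) (Nat.le_self_pow (by norm_num) w)
  have a2 : h ≤ N ^ 2 * w ^ 2 * h := by
    exact Nat.le_mul_of_pos_left _ (Nat.mul_pos hN2 hw2)
  have a3 : N * w * h * (N * w) = N ^ 2 * w ^ 2 * h := by ring
  have a4 : N ^ 2 * w ^ 2 * h ≤ N ^ 2 * A * w ^ (e + 2) := by
    calc N ^ 2 * w ^ 2 * h ≤ N ^ 2 * w ^ 2 * (A * w ^ e) := Nat.mul_le_mul_left _ h1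
      _ = N ^ 2 * A * w ^ (e + 2) := by rw [pow_add]; ring
  have a5 : 1 ≤ w ^ (e + 2) := Nat.pow_pos hw
  calc N * w * h * (N * w) + (N * w * h + h) + 1
      ≤ 3 * (N ^ 2 * A * w ^ (e + 2)) + 1 * w ^ (e + 2) := by omega
    _ = (3 * N ^ 2 * A + 1) * w ^ (e + 2) := by ring

theorem pb_length (s : ℕ) : PB fun w => (corep s w).length := by
  obtain ⟨A, hA⟩ := length_corep s
  exact PB.of_le hA

theorem pb_dph (s : ℕ) : PB fun w => KNO.dph (2 ^ s) (KNO.nuf (2 ^ s) (nn s)) w := by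
  refine PB.mono (g := fun w => (2 * (KNO.nuf (2 ^ s) (nn s) + 5)) ^ (4 * 2 ^ s + 4) * (w + 1) ^ 8) ?_ ?_
  · exact (PB.const _).mul ((PB.idw.add (PB.const 1)).pow 8)
  · intro w hw
    exact KNO.dph_le (2 ^ s) (KNO.nuf (2 ^ s) (nn s)) w (two_pow_pos s) hw

/-- the exponent in the bound of the coordinates of the core points -/
def cex (s w : ℕ) : ℕ := nn s * w + (KNO.dph (2 ^ s) (KNO.nuf (2 ^ s) (nn s)) w ^ 2 *
  (nn s * w * KNO.dph (2 ^ s) (KNO.nuf (2 ^ s) (nn s)) w + nn s + 6)) ^ KNO.nph (2 ^ s) (2 ^ s)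

theorem pb_cex (s : ℕ) : PB (cex s) := by
  unfold cex
  refine ((PB.const _).mul PB.idw).add (PB.pow (((pb_dph s).pow 2).mul ?_) _)
  exact ((((PB.const _).mul PB.idw).mul (pb_dph s)).add (PB.const _)).add (PB.const _)

theorem abs_corep {s w : ℕ} (hw : 1 ≤ w) : ∀ l ∈ corep s w, ∀ i : ℕ,
    |l.getD i 0| ≤ ((2 ^ cex s w : ℕ) : ℤ) := by
  intro l hl i
  by_cases hi : i < l.length
  · rw [List.getD_eq_getElem _ _ hi]
    have h1 := KNO.core_abs (2 ^ s) (KNO.nuf (2 ^ s) (nn s)) w (two_pow_pos s) hw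
      (KNO.nph (2 ^ s) (2 ^ s)) (nn s) (nn s * w) l hl _ (List.getElem_mem hi)
    refine h1.trans (le_of_eq ?_)
    rw [cex]
    push_cast
    rfl
  · rw [List.getD_eq_default _ _ (not_lt.1 hi), abs_zero]
    positivity

/-- the exponent in the bound of the coordinates -/
def qex (s w : ℕ) : ℕ := cex s w + (corep s w).length + (corep s w).length ^ 2 + 2

theorem pb_qex (s : ℕ) : PB (qex s) := by
  unfold qex
  exact (((pb_cex s).add (pb_length s)).add ((pb_length s).pow 2)).add (PB.const 2)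

theorem mex (s w : ℕ) : 1 + (corep s w).length * 2 ^ cex s w * (corep s w).length ^ (corep s w).length + 1 ≤
    2 ^ qex s w := by
  set h : ℕ := (corep s w).length with hh
  set a : ℕ := cex s w with ha
  have h1 : h ≤ 2 ^ h := Nat.lt_two_pow_self.le
  have h2 : h ^ h ≤ 2 ^ (h ^ 2) := by
    calc h ^ h ≤ (2 ^ h) ^ h := Nat.pow_le_pow_left h1 h
      _ = 2 ^ (h ^ 2) := by rw [← pow_mul, sq]
  have h3 : h * 2 ^ a * h ^ h ≤ 2 ^ (a + h + h ^ 2) := by
    calc h * 2 ^ a * h ^ h ≤ 2 ^ h * 2 ^ a * 2 ^ (h ^ 2) :=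
          Nat.mul_le_mul (Nat.mul_le_mul_right _ h1) h2
      _ = 2 ^ (a + h + h ^ 2) := by rw [← pow_add, ← pow_add, add_comm h a]
  have h4 : 1 ≤ 2 ^ (a + h + h ^ 2) := Nat.one_le_two_pow
  have h5 : 2 ^ qex s w = 2 ^ (a + h + h ^ 2) * 4 := by
    rw [qex, ← hh, ← ha, pow_add]
    norm_num
  rw [h5]
  omega

/-- bound of the coordinates -/
theorem fam1_abs {s n w d : ℕ} (hw : 1 ≤ w) : ∀ p ∈ fam1 s n w d, ∀ x ∈ p,
    Nat.size x.natAbs ≤ (qex s w + n * d * ed s w ^ rounds (s * 2 ^ s) n + 1) *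
      ed s w ^ rounds (s * 2 ^ s) n := by
  intro p hp x hx
  set R : ℕ := rounds (s * 2 ^ s) n with hR
  rw [fam1, List.mem_map] at hp
  obtain ⟨v, hv, rfl⟩ := hp
  rw [List.mem_map] at hx
  obtain ⟨i, _, rfl⟩ := hx
  rw [List.mem_range] at hv
  have hbd := abs_itc (N := nn s) (M := 1 + (corep s w).length * 2 ^ cex s w *
      (corep s w).length ^ (corep s w).length) (D := dw (nn s) w (corep s w).length)
      (c := winCurve (nn s) w (corep s w)) (nn_pos s)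
    (fun i _ v => winCurve_abs (nn s) w (2 ^ cex s w) (corep s w) i (fun l hl => abs_corep hw l hl i) v)
    (v : ℤ) R i
  rw [eval_itc] at hbd
  set y : ℤ := itv (nn s) w (corep s w) R i (v : ℤ) with hy
  rw [Nat.size_le]
  have hE : ed s w = dw (nn s) w (corep s w).length + 1 := rfl
  rw [← hE] at hbd
  set E : ℕ := ed s w ^ R with hEd
  have h1 : ((1 + (corep s w).length * 2 ^ cex s w * (corep s w).length ^ (corep s w).length : ℕ) : ℤ) + 1 ≤
      (2 : ℤ) ^ qex s w := by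
    have := mex s w
    exact_mod_cast this
  have hdE : dw (nn s) w (corep s w).length ^ R ≤ E := Nat.pow_le_pow_left (by rw [hE]; omega) R
  have h2 : |(v : ℤ)| + 1 ≤ (2 : ℤ) ^ (n * d * E + 1) := by
    have h3 : v ≤ n * d * E := (Nat.lt_succ_iff.1 hv).trans (Nat.mul_le_mul_left _ hdE)
    have h4 : v + 1 ≤ 2 ^ (n * d * E + 1) := by
      have := Nat.lt_two_pow_self (n := n * d * E + 1)
      omega
    rw [Nat.abs_cast]
    exact_mod_cast h4
  have h3 : |y| + 1 ≤ (2 : ℤ) ^ ((qex s w + n * d * E + 1) * E) := by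
    refine hbd.trans ?_
    rw [pow_mul]
    refine pow_le_pow_left₀ (by positivity) ?_ _
    rw [show qex s w + n * d * E + 1 = qex s w + (n * d * E + 1) by ring, pow_add]
    exact mul_le_mul h1 h2 (by positivity) (by positivity)
  have h4 : ((y.natAbs : ℕ) : ℤ) < (2 : ℤ) ^ ((qex s w + n * d * E + 1) * E) := by
    rw [Int.natCast_natAbs]
    omega
  exact_mod_cast h4

end Pool.Agent.KNR
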