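import Mathlib

/-!
A countable field of characteristic zero embeds in the complex numbers.
-/

set_option autoImplicit false

namespace Pool.Agent.KNR

open Cardinal

universe u

theorem toC_exists (K : Type u) [Field K] [CharZero K] [Countable K] : Nonempty (K →+* ℂ) := by
  classical
  obtain ⟨s, hs⟩ := exists_isTranscendenceBasis ℤ K
  obtain ⟨t, ht⟩ := exists_isTranscendenceBasis ℤ ℂ
  have hC : ℵ₀ < #ℂ := by
    rw [Cardinal.mk_complex]
    exact Cardinal.aleph0_lt_continuum
  have htc : #ℂ = #t :=
    IsAlgClosed.cardinal_eq_cardinal_transcendence_basis_of_aleph0_lt' (R := ℤ) (fun x : t => (x : ℂ)) ht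
      (le_of_eq mk_int) hC
  have hti : Infinite t := by
    rw [Cardinal.infinite_iff, ← htc]
    exact hC.le
  have hsc : Countable s := inferInstance
  obtain ⟨g, hg⟩ := exists_injective_nat s
  let e : ℕ → t := Infinite.natEmbedding t
  have he : Function.Injective e := (Infinite.natEmbedding t).injective
  let v : s → ℂ := fun x => ((e (g x) : t) : ℂ)
  have hv : AlgebraicIndependent ℤ v := ht.1.comp (fun x => e (g x)) (he.comp hg)
  have halg : Algebra.IsAlgebraic (Algebra.adjoin ℤ (Set.range (fun x : s => (x : K)))) K :=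
    hs.isAlgebraic
  let φ : (Algebra.adjoin ℤ (Set.range (fun x : s => (x : K)))) →ₐ[ℤ] ℂ :=
    (MvPolynomial.aeval v).comp (hs.1.aevalEquiv.symm : _ →ₐ[ℤ] MvPolynomial s ℤ)
  have hφ : Function.Injective φ := by
    intro a b hab
    have h1 : MvPolynomial.aeval v (hs.1.aevalEquiv.symm a) =
        MvPolynomial.aeval v (hs.1.aevalEquiv.symm b) := hab
    exact hs.1.aevalEquiv.symm.injective (hv h1)
  let _ : Algebra (Algebra.adjoin ℤ (Set.range (fun x : s => (x : K)))) ℂ := φ.toRingHom.toAlgebra
  have : FaithfulSMul (Algebra.adjoin ℤ (Set.range (fun x : s => (x : K)))) ℂ :=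
    (faithfulSMul_iff_algebraMap_injective _ _).2 hφ
  have : Module.IsTorsionFree (Algebra.adjoin ℤ (Set.range (fun x : s => (x : K)))) ℂ := inferInstance
  exact ⟨(IsAlgClosed.lift (R := Algebra.adjoin ℤ (Set.range (fun x : s => (x : K)))) (S := K)
    (M := ℂ)).toRingHom⟩

end Pool.Agent.KNR
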