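import Pool.Agent.KNR.ToC

/-!
Transfer: polynomials with read-once programs of width `w` over a field of characteristic zero, and over
the complex numbers.
-/

set_option autoImplicit false

namespace Pool.Agent.KNR

open MvPolynomial

universe u

/-- for every prefix of the variables, `f` is a sum of `w` products of a polynomial in the variables
of the prefix and a polynomial in the other variables. -/
def PCut {K : Type*} [Field K] {n : ℕ} (w : ℕ) (f : MvPolynomial (Fin n) K) : Prop :=
  ∀ p : ℕ, ∃ g h : Fin w → MvPolynomial (Fin n) K,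
    (∀ j, ∀ i ∈ (g j).vars, (i : ℕ) < p) ∧ (∀ j, ∀ i ∈ (h j).vars, p ≤ (i : ℕ)) ∧
      f = ∑ j, g j * h j

private theorem eval_int {R R' : Type*} [CommRing R] [CommRing R'] (φ : R →+* R') {n : ℕ} (x : Fin n → ℤ)
    (p : MvPolynomial (Fin n) R) :
    eval (fun i => ((x i : ℤ) : R')) (map φ p) = φ (eval (fun i => ((x i : ℤ) : R)) p) := by
  rw [eval_map]
  induction p using MvPolynomial.induction_on with
  | C a => simp
  | add p q hp hq => rw [eval₂_add, hp, hq, map_add, map_add]
  | mul_X p i hp => rw [eval₂_mul, hp, eval₂_X, map_mul, map_mul, eval_X, map_intCast]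

theorem transfer (K : Type u) [Field K] [CharZero K] {n w : ℕ} {f : MvPolynomial (Fin n) K}
    (hf : f ≠ 0) (hc : PCut w f) :
    ∃ f' : MvPolynomial (Fin n) ℂ, f' ≠ 0 ∧ PCut w f' ∧ (∀ i, f'.degreeOf i = f.degreeOf i) ∧
      ∀ x : Fin n → ℤ, eval (fun i => ((x i : ℤ) : ℂ)) f' ≠ 0 →
        eval (fun i => ((x i : ℤ) : K)) f ≠ 0 := by
  classical
  choose g h hg hh hgh using hc
  let S : Set K := ((f.coeffs : Set K)) ∪ ⋃ p : ℕ, ⋃ j : Fin w,
    (((g p j).coeffs : Set K) ∪ ((h p j).coeffs : Set K))
  have hSc : S.Countable := by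
    refine (Finset.countable_toSet _).union (Set.countable_iUnion fun p => Set.countable_iUnion fun j => ?_)
    exact (Finset.countable_toSet _).union (Finset.countable_toSet _)
  let L : Subfield K := Subfield.closure S
  have hLc : Countable L := by
    rw [← Cardinal.mk_le_aleph0_iff]
    refine (Subfield.cardinalMk_closure_le_max S).trans ?_
    exact max_le (Cardinal.mk_le_aleph0_iff.2 hSc.to_subtype) le_rfl
  have hLz : CharZero L := inferInstance
  obtain ⟨φ⟩ := toC_exists L
  have hSL : S ⊆ L := Subfield.subset_closure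
  have lift : ∀ q : MvPolynomial (Fin n) K, ((q.coeffs : Set K)) ⊆ S →
      ∃ q' : MvPolynomial (Fin n) L, map L.subtype q' = q := by
    intro q hq
    have h1 : q ∈ Set.range (map (σ := Fin n) L.subtype) := by
      rw [mem_range_map_iff_coeffs_subset]
      intro x hx
      exact ⟨⟨x, hSL (hq hx)⟩, rfl⟩
    exact h1
  obtain ⟨f₀, hf₀⟩ := lift f (Set.subset_union_left)
  have hgl : ∀ p j, ∃ q' : MvPolynomial (Fin n) L, map L.subtype q' = g p j := fun p j =>
    lift _ (fun x hx => Or.inr (Set.mem_iUnion.2 ⟨p, Set.mem_iUnion.2 ⟨j, Or.inl hx⟩⟩))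
  have hhl : ∀ p j, ∃ q' : MvPolynomial (Fin n) L, map L.subtype q' = h p j := fun p j =>
    lift _ (fun x hx => Or.inr (Set.mem_iUnion.2 ⟨p, Set.mem_iUnion.2 ⟨j, Or.inr hx⟩⟩))
  choose g₀ hg₀ using hgl
  choose h₀ hh₀ using hhl
  have hinj : Function.Injective (map (σ := Fin n) L.subtype) := map_injective _ L.subtype.injective
  have hφi : Function.Injective φ := φ.injective
  have hfe : ∀ p, f₀ = ∑ j, g₀ p j * h₀ p j := by
    intro p
    apply hinj
    rw [hf₀, map_sum]
    rw [hgh p]
    refine Finset.sum_congr rfl fun j _ => ?_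
    rw [map_mul, hg₀, hh₀]
  have hf₀0 : f₀ ≠ 0 := by
    rintro rfl
    rw [map_zero] at hf₀
    exact hf hf₀.symm
  refine ⟨map φ f₀, ?_, ?_, ?_, ?_⟩
  · intro h0
    exact hf₀0 (map_injective φ hφi (by rw [h0, map_zero]))
  · intro p
    refine ⟨fun j => map φ (g₀ p j), fun j => map φ (h₀ p j), ?_, ?_, ?_⟩
    · intro j i hi
      rw [vars_map_of_injective _ hφi] at hi
      refine hg p j i ?_
      rw [← hg₀ p j, vars_map_of_injective _ L.subtype.injective]
      exact hi
    · intro j i hi
      rw [vars_map_of_injective _ hφi] at hi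
      refine hh p j i ?_
      rw [← hh₀ p j, vars_map_of_injective _ L.subtype.injective]
      exact hi
    · rw [hfe p, map_sum]
      refine Finset.sum_congr rfl fun j _ => ?_
      rw [map_mul]
  · intro i
    have h1 : (map φ f₀).degreeOf i = f₀.degreeOf i := by
      simp only [degreeOf, degrees_map_of_injective _ hφi]
    have h2 : (map L.subtype f₀).degreeOf i = f₀.degreeOf i := by
      simp only [degreeOf, degrees_map_of_injective _ L.subtype.injective]
    rw [h1, ← h2, hf₀]
  · intro x hx h0
    apply hx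
    have h1 : eval (fun i => ((x i : ℤ) : L)) f₀ = 0 := by
      apply L.subtype.injective
      rw [map_zero, ← eval_int L.subtype x f₀, hf₀]
      exact h0
    rw [eval_int φ x f₀, h1, map_zero]

end Pool.Agent.KNR
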